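import Pool.Agent.H74.ST.Pc
import Pool.Agent.H94.PC.MoMod

set_option autoImplicit false

/-!
# The sup bound

For an additive character `ψ` of `F[X]` which is not trivial on the polynomials of degree `< m + α`,
`α ≤ m`: `∑_{P ∈ Pr m} |∑_{deg a < α} ψ (a P)| ≤ q ^ (m + 1)`.
-/

namespace Pool.Agent.H74.ST

open Polynomial Pool.Agent.H94.PC

variable {F : Type} [Field F] [Finite F]

theorem Lt_add {n : ℕ} {a b : F[X]} (ha : a ∈ Lt F n) (hb : b ∈ Lt F n) : a + b ∈ Lt F n := by
  rw [mem_Lt] at *
  exact lt_of_le_of_lt (degree_add_le _ _) (max_lt ha hb)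

theorem Lt_sub {n : ℕ} {a b : F[X]} (ha : a ∈ Lt F n) (hb : b ∈ Lt F n) : a - b ∈ Lt F n := by
  rw [mem_Lt] at *
  exact lt_of_le_of_lt (degree_sub_le _ _) (max_lt ha hb)

theorem Lt_zero (n : ℕ) : (0 : F[X]) ∈ Lt F n := by
  rw [mem_Lt, degree_zero]; exact WithBot.bot_lt_coe _

/-- a character of a box is trivial or has sum zero -/
theorem sum_Lt_char (φ : AddChar F[X] ℂ) (n : ℕ) :
    (∀ a ∈ Lt F n, φ a = 1) ∨ ∑ a ∈ Lt F n, φ a = 0 := by
  classical
  by_cases h : ∀ a ∈ Lt F n, φ a = 1
  · exact Or.inl h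
  · right
    push Not at h
    obtain ⟨b, hb, hb1⟩ := h
    have h1 : ∑ a ∈ Lt F n, φ (b + a) = ∑ a ∈ Lt F n, φ a := by
      refine Finset.sum_nbij' (fun a => b + a) (fun a => a - b) ?_ ?_ ?_ ?_ ?_
      · intro a ha; exact Finset.mem_coe.2 (Lt_add hb (Finset.mem_coe.1 ha))
      · intro a ha; exact Finset.mem_coe.2 (Lt_sub (Finset.mem_coe.1 ha) hb)
      · intro a _; ring
      · intro a _; ring
      · intro a _; rfl
    have h2 : ∑ a ∈ Lt F n, φ (b + a) = φ b * ∑ a ∈ Lt F n, φ a := by
      rw [Finset.mul_sum]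
      exact Finset.sum_congr rfl fun a _ => AddChar.map_add_eq_mul _ _ _
    have h3 : (φ b - 1) * ∑ a ∈ Lt F n, φ a = 0 := by
      rw [sub_mul, one_mul, ← h2, h1, sub_self]
    rcases mul_eq_zero.1 h3 with h4 | h4
    · exact absurd (sub_eq_zero.1 h4) hb1
    · exact h4

/-- the character `x ↦ ψ (c x)` -/
noncomputable def mulc (ψ : AddChar F[X] ℂ) (c : F[X]) : AddChar F[X] ℂ :=
  ψ.compAddMonoidHom (AddMonoidHom.mulLeft c)

omit [Finite F] in
theorem mulc_apply (ψ : AddChar F[X] ℂ) (c x : F[X]) : mulc ψ c x = ψ (c * x) := rfl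

open Classical in
/-- the number of monic irreducible `P` of degree `m` orthogonal to the box of size `α` -/
theorem card_orth (ψ : AddChar F[X] ℂ) {m α : ℕ} (hα : α ≤ m)
    (hψ : ∃ g ∈ Lt F (m + α), ψ g ≠ 1) :
    (((Pr F m).filter fun P => ∀ a ∈ Lt F α, ψ (P * a) = 1).card : ℝ) * (Nat.card F : ℝ) ^ α ≤
      (Nat.card F : ℝ) ^ (m + 1) := by
  have hq : (0 : ℝ) < (Nat.card F : ℝ) := by exact_mod_cast (Nat.card_pos : 0 < Nat.card F)
  by_cases hK : ∃ a ∈ Lt F α, a ≠ 0 ∧ ∀ x ∈ Lt F (m + 1), ψ (a * x) = 1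
  · -- there is no such prime
    obtain ⟨a, ha, ha0, hax⟩ := hK
    have hemp : (Pr F m).filter (fun P => ∀ a ∈ Lt F α, ψ (P * a) = 1) = ∅ := by
      rw [Finset.filter_eq_empty_iff]
      intro P hP hPo
      obtain ⟨hP1, hP2, hP3⟩ := mem_Pr.1 hP
      obtain ⟨g, hg, hg1⟩ := hψ
      apply hg1
      have hPdeg : P.degree = (m : WithBot ℕ) := by rw [degree_eq_natDegree hP1.ne_zero, hP2]
      have hadeg : a.degree < P.degree := by
        rw [hPdeg]
        refine lt_of_lt_of_le (mem_Lt.1 ha) ?_
        exact_mod_cast hα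
      have hcop : IsCoprime P a := by
        rw [hP3.coprime_iff_not_dvd]
        intro hd
        exact ha0 (eq_zero_of_dvd_of_degree_lt hd hadeg)
      obtain ⟨u, v, huv⟩ := hcop
      -- `1 = u P + v a`, so `r = (r v % P) a + (..) P`
      set r := g %ₘ P with hr
      set s := g /ₘ P with hs
      have hgr : r + P * s = g := modByMonic_add_div g P
      have hrdeg : r.degree < (m : WithBot ℕ) := by
        rw [← hPdeg]; exact degree_modByMonic_lt g hP1
      set w := (r * v) %ₘ P with hw
      have hwdeg : w.degree < (m : WithBot ℕ) := by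
        rw [← hPdeg]; exact degree_modByMonic_lt _ hP1
      have h1 : P ∣ r - a * w := by
        have h2 : w + P * ((r * v) /ₘ P) = r * v := modByMonic_add_div _ P
        refine ⟨u * r + a * ((r * v) /ₘ P), ?_⟩
        have h3 : w = r * v - P * ((r * v) /ₘ P) := eq_sub_of_add_eq h2
        rw [h3]
        have h4 : r = r * (u * P + v * a) := by rw [huv, mul_one]
        calc r - a * (r * v - P * ((r * v) /ₘ P))
            = r * (u * P + v * a) - a * (r * v - P * ((r * v) /ₘ P)) := by rw [← h4]
          _ = P * (u * r + a * ((r * v) /ₘ P)) := by ring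
      obtain ⟨z, hz⟩ := h1
      have hzdeg : z ∈ Lt F α := by
        rw [mem_Lt]
        by_contra hcon
        push Not at hcon
        have hz0 : z ≠ 0 := by
          rintro rfl
          rw [degree_zero] at hcon
          exact absurd hcon (not_le.2 (WithBot.bot_lt_coe _))
        have h5 : (P * z).degree = (m : WithBot ℕ) + z.degree := by
          rw [degree_mul, hPdeg]
        have h6 : ((m + α : ℕ) : WithBot ℕ) ≤ (P * z).degree := by
          rw [h5, Nat.cast_add]
          gcongr
        have h7 : (r - a * w).degree < ((m + α : ℕ) : WithBot ℕ) := by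
          refine lt_of_le_of_lt (degree_sub_le _ _) (max_lt ?_ ?_)
          · refine lt_of_lt_of_le hrdeg ?_
            exact_mod_cast Nat.le_add_right m α
          · rw [degree_mul]
            by_cases hw0 : w = 0
            · rw [hw0, degree_zero, WithBot.add_bot]; exact WithBot.bot_lt_coe _
            · rw [degree_eq_natDegree hw0, degree_eq_natDegree ha0]
              have e1 : w.natDegree < m := by
                rw [degree_eq_natDegree hw0] at hwdeg; exact_mod_cast hwdeg
              have e2 : a.natDegree < α := by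
                have := mem_Lt.1 ha
                rw [degree_eq_natDegree ha0] at this; exact_mod_cast this
              exact_mod_cast (by omega : a.natDegree + w.natDegree < m + α)
        rw [hz] at h7
        exact absurd h6 (not_le.2 h7)
      have hsdeg : s ∈ Lt F α := by
        rw [mem_Lt]
        by_contra hcon
        push Not at hcon
        have h5 : (P * s).degree = (m : WithBot ℕ) + s.degree := by
          rw [degree_mul, hPdeg]
        have h6 : ((m + α : ℕ) : WithBot ℕ) ≤ (P * s).degree := by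
          rw [h5, Nat.cast_add]
          gcongr
        have h7 : (P * s).degree < ((m + α : ℕ) : WithBot ℕ) := by
          have : P * s = g - r := by rw [← hgr]; ring
          rw [this]
          refine lt_of_le_of_lt (degree_sub_le _ _) (max_lt (mem_Lt.1 hg) ?_)
          refine lt_of_lt_of_le hrdeg ?_
          exact_mod_cast Nat.le_add_right m α
        exact absurd h6 (not_le.2 h7)
      have hfin : g = P * (s + z) + a * w := by
        have : r = a * w + P * z := by rw [← hz]; ring
        rw [← hgr, this]; ring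
      rw [hfin, AddChar.map_add_eq_mul, hPo _ (Lt_add hsdeg hzdeg), one_mul]
      apply hax
      rw [mem_Lt]
      refine lt_of_lt_of_le hwdeg ?_
      exact_mod_cast Nat.le_succ m
    rw [hemp, Finset.card_empty]
    push_cast
    rw [zero_mul]
    positivity
  · push Not at hK
    -- double counting
    have h1 : ∑ a ∈ Lt F α, ∑ x ∈ Lt F (m + 1), ψ (a * x) = (Nat.card F : ℂ) ^ (m + 1) := by
      rw [Finset.sum_eq_single (0 : F[X])]
      · rw [Finset.sum_congr rfl (g := fun _ => (1 : ℂ))
          (fun x _ => by rw [zero_mul, AddChar.map_zero_eq_one]), Finset.sum_const, card_Lt, nsmul_eq_mul,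
          mul_one]
        push_cast
        rfl
      · intro a ha ha0
        obtain ⟨x, hx, hx1⟩ := hK a ha ha0
        rcases sum_Lt_char (mulc ψ a) (m + 1) with h | h
        · exact absurd (h x hx) hx1
        · exact h
      · intro h; exact absurd (Lt_zero α) h
    rw [Finset.sum_comm] at h1
    have h2 : ∀ x : F[X], ∑ a ∈ Lt F α, ψ (a * x) =
        if ∀ a ∈ Lt F α, ψ (x * a) = 1 then (Nat.card F : ℂ) ^ α else 0 := by
      intro x
      have e : ∑ a ∈ Lt F α, ψ (a * x) = ∑ a ∈ Lt F α, mulc ψ x a :=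
        Finset.sum_congr rfl fun a _ => by rw [mulc_apply, mul_comm]
      rw [e]
      split_ifs with h
      · have e2 : ∀ a ∈ Lt F α, mulc ψ x a = 1 := fun a ha => h a ha
        rw [Finset.sum_congr rfl e2, Finset.sum_const, card_Lt, nsmul_eq_mul, mul_one]
        push_cast
        rfl
      · rcases sum_Lt_char (mulc ψ x) α with h' | h'
        · exact absurd h' h
        · exact h'
    rw [Finset.sum_congr rfl (fun x _ => h2 x), ← Finset.sum_filter, Finset.sum_const,
      nsmul_eq_mul] at h1
    have h3 : (((Lt F (m + 1)).filter fun x => ∀ a ∈ Lt F α, ψ (x * a) = 1).card : ℝ) *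
        (Nat.card F : ℝ) ^ α = (Nat.card F : ℝ) ^ (m + 1) := by
      exact_mod_cast h1
    rw [← h3]
    refine mul_le_mul_of_nonneg_right ?_ (pow_pos hq _).le
    have h4 : ((Pr F m).filter fun P => ∀ a ∈ Lt F α, ψ (P * a) = 1).card ≤
        ((Lt F (m + 1)).filter fun x => ∀ a ∈ Lt F α, ψ (x * a) = 1).card := by
      apply Finset.card_le_card
      intro P hP
      rw [Finset.mem_filter] at hP ⊢
      refine ⟨?_, hP.2⟩
      obtain ⟨hP1, hP2, hP3⟩ := mem_Pr.1 hP.1
      rw [mem_Lt, degree_eq_natDegree hP1.ne_zero, hP2]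
      exact_mod_cast Nat.lt_succ_self m
    exact_mod_cast h4

theorem sup_bound (ψ : AddChar F[X] ℂ) {m α : ℕ} (hα : α ≤ m)
    (hψ : ∃ g ∈ Lt F (m + α), ψ g ≠ 1) :
    ∑ P ∈ Pr F m, ‖∑ a ∈ Lt F α, ψ (P * a)‖ ≤ (Nat.card F : ℝ) ^ (m + 1) := by
  classical
  have h1 : ∀ P ∈ Pr F m, ‖∑ a ∈ Lt F α, ψ (P * a)‖ ≤
      if ∀ a ∈ Lt F α, ψ (P * a) = 1 then (Nat.card F : ℝ) ^ α else 0 := by
    intro P _
    split_ifs with h
    · rw [Finset.sum_congr rfl (g := fun _ => (1 : ℂ)) (fun a ha => h a ha), Finset.sum_const,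
          card_Lt, nsmul_eq_mul, mul_one]
      simp
    · rcases sum_Lt_char (mulc ψ P) α with h' | h'
      · exact absurd h' h
      · have : ∑ a ∈ Lt F α, ψ (P * a) = 0 := h'
        rw [this, norm_zero]
  refine (Finset.sum_le_sum h1).trans ?_
  rw [← Finset.sum_filter, Finset.sum_const, nsmul_eq_mul]
  exact card_orth ψ hα hψ

end Pool.Agent.H74.ST
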