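import Pool.Agent.H74.ST.Pc

set_option autoImplicit false

/-!
# Turan-Kubilius for the number of irreducible divisors
-/

namespace Pool.Agent.H74.ST

open Polynomial Pool.Agent.H94.PC

variable {F : Type} [Field F] [Finite F]

open Classical in
/-- number of monic multiples -/
theorem card_dvd {N : F[X]} (hN : N.Monic) {n : ℕ} (h : N.natDegree ≤ n) :
    ∑ A ∈ Mo F n, (if N ∣ A then (1 : ℝ) else 0) = (Nat.card F : ℝ) ^ (n - N.natDegree) := by
  rw [sum_Mo_mod hN h (fun A => if N ∣ A then (1 : ℝ) else 0)]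
  have h1 : ∀ h ∈ Mo F (n - N.natDegree), ∑ r ∈ Lt F N.natDegree,
      (if N ∣ N * h + r then (1 : ℝ) else 0) = 1 := by
    intro h _
    rw [Finset.sum_eq_single (0 : F[X])]
    · rw [add_zero, if_pos (dvd_mul_right _ _)]
    · intro r hr hr0
      rw [if_neg]
      intro hd
      have h2 : N ∣ r := (dvd_add_right (dvd_mul_right N h)).1 hd
      have h3 := mem_Lt.1 hr
      rw [← degree_eq_natDegree hN.ne_zero] at h3
      exact hr0 (eq_zero_of_dvd_of_degree_lt h2 h3)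
    · intro h0
      exfalso; apply h0
      rw [mem_Lt, degree_zero]
      exact WithBot.bot_lt_coe _
  rw [Finset.sum_congr rfl h1, Finset.sum_const, card_Mo, nsmul_eq_mul, mul_one]
  push_cast
  rfl

open Classical in
theorem card_dvd_le {N : F[X]} (hN : N.Monic) (n : ℕ) :
    ∑ A ∈ Mo F n, (if N ∣ A then (1 : ℝ) else 0) ≤ (Nat.card F : ℝ) ^ n / (Nat.card F : ℝ) ^ N.natDegree := by
  have hq : (0 : ℝ) < (Nat.card F : ℝ) := by exact_mod_cast (Nat.card_pos : 0 < Nat.card F)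
  rcases Nat.lt_or_ge n N.natDegree with h | h
  · rw [Finset.sum_eq_zero]
    · positivity
    · intro A hA
      rw [if_neg]
      intro hd
      have h1 := mem_Mo.1 hA
      have := natDegree_le_of_dvd hd h1.1.ne_zero
      omega
  · rw [card_dvd hN h]
    have e : n = (n - N.natDegree) + N.natDegree := by omega
    conv_rhs => rw [e]
    rw [pow_add]
    have : (Nat.card F : ℝ) ^ N.natDegree ≠ 0 := (pow_pos hq _).ne'
    rw [mul_div_assoc, div_self this, mul_one]

/-- the monic irreducible polynomials of degree at most `n` -/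
noncomputable def PP (F : Type) [Field F] [Finite F] (n : ℕ) : Finset F[X] := by
  classical exact (Finset.range n).biUnion fun m => Pr F (m + 1)

theorem mem_PP {n : ℕ} {P : F[X]} :
    P ∈ PP F n ↔ P.Monic ∧ Irreducible P ∧ P.natDegree ≤ n := by
  classical
  unfold PP
  rw [Finset.mem_biUnion]
  constructor
  · rintro ⟨m, hm, hP⟩
    have h := mem_Pr.1 hP
    exact ⟨h.1, h.2.2, by rw [h.2.1]; rw [Finset.mem_range] at hm; omega⟩
  · rintro ⟨h1, h2, h3⟩
    have h4 : 0 < P.natDegree := h2.natDegree_pos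
    refine ⟨P.natDegree - 1, by rw [Finset.mem_range]; omega, mem_Pr.2 ⟨h1, by omega, h2⟩⟩

theorem sum_PP (n : ℕ) (f : F[X] → ℝ) :
    ∑ P ∈ PP F n, f P = ∑ m ∈ Finset.range n, ∑ P ∈ Pr F (m + 1), f P := by
  classical
  unfold PP
  rw [Finset.sum_biUnion]
  intro i _ j _ hij
  rw [Function.onFun, Finset.disjoint_left]
  intro P hP hP'
  have h1 := (mem_Pr.1 hP).2.1
  have h2 := (mem_Pr.1 hP').2.1
  omega

theorem sum_PP_inv (n : ℕ) : ∑ P ∈ PP F n, 1 / (Nat.card F : ℝ) ^ P.natDegree = SP F n := by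
  rw [sum_PP]
  unfold SP
  refine Finset.sum_congr rfl fun m _ => ?_
  rw [Finset.sum_congr rfl (g := fun _ => 1 / (Nat.card F : ℝ) ^ (m + 1))
    (fun P hP => by rw [(mem_Pr.1 hP).2.1]), Finset.sum_const, nsmul_eq_mul, mul_one_div]

open Classical in
theorem om_eq_sum {A : F[X]} (hA : A ≠ 0) {n : ℕ} (hn : A.natDegree ≤ n) :
    (om A : ℝ) = ∑ P ∈ PP F n, if P ∣ A then (1 : ℝ) else 0 := by
  unfold om
  rw [Finset.sum_ite, Finset.sum_const_zero, add_zero, Finset.sum_const, nsmul_eq_mul, mul_one]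
  congr 2
  ext P
  rw [mem_pf hA, Finset.mem_filter, mem_PP]
  constructor
  · rintro ⟨h1, h2, h3⟩
    exact ⟨⟨h1, h2, (natDegree_le_of_dvd h3 hA).trans hn⟩, h3⟩
  · rintro ⟨⟨h1, h2, _⟩, h3⟩
    exact ⟨h1, h2, h3⟩

/-- the number of monic irreducible divisors of degree at most `T` -/
noncomputable def omT (T : ℕ) (A : F[X]) : ℕ := by
  classical exact ((pf A).filter fun P => P.natDegree ≤ T).card

open Classical in
theorem omT_eq_sum {A : F[X]} (hA : A ≠ 0) (T : ℕ) :
    (omT T A : ℝ) = ∑ P ∈ PP F T, if P ∣ A then (1 : ℝ) else 0 := by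
  unfold omT
  rw [Finset.sum_ite, Finset.sum_const_zero, add_zero, Finset.sum_const, nsmul_eq_mul, mul_one]
  congr 2
  ext P
  rw [Finset.mem_filter, mem_pf hA, Finset.mem_filter, mem_PP]
  tauto

theorem sum_omT_le (T n : ℕ) :
    ∑ A ∈ Mo F n, (omT T A : ℝ) ≤ (Nat.card F : ℝ) ^ n * SP F T := by
  classical
  have h1 : ∑ A ∈ Mo F n, (omT T A : ℝ) =
      ∑ A ∈ Mo F n, ∑ P ∈ PP F T, if P ∣ A then (1 : ℝ) else 0 :=
    Finset.sum_congr rfl fun A hA => omT_eq_sum (mem_Mo.1 hA).1.ne_zero T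
  rw [h1, Finset.sum_comm, ← sum_PP_inv, Finset.mul_sum]
  refine Finset.sum_le_sum fun P hP => ?_
  rw [mul_one_div]
  exact card_dvd_le (mem_PP.1 hP).1 n

/-- Turan-Kubilius -/
theorem turan (n : ℕ) :
    ∑ A ∈ Mo F n, ((om A : ℝ) - SP F n) ^ 2 ≤ (Nat.card F : ℝ) ^ n * SP F n := by
  classical
  have hq : (0 : ℝ) < (Nat.card F : ℝ) := by exact_mod_cast (Nat.card_pos : 0 < Nat.card F)
  have hom : ∀ A ∈ Mo F n, (om A : ℝ) = ∑ P ∈ PP F n, if P ∣ A then (1 : ℝ) else 0 := fun A hA =>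
    om_eq_sum (mem_Mo.1 hA).1.ne_zero (mem_Mo.1 hA).2.le
  have h1 : ∑ A ∈ Mo F n, (om A : ℝ) = (Nat.card F : ℝ) ^ n * SP F n := by
    rw [Finset.sum_congr rfl hom, Finset.sum_comm, ← sum_PP_inv, Finset.mul_sum]
    refine Finset.sum_congr rfl fun P hP => ?_
    have hP' := mem_PP.1 hP
    rw [card_dvd hP'.1 hP'.2.2, mul_one_div, eq_div_iff (pow_pos hq _).ne', ← pow_add]
    congr 1
    have := hP'.2.2
    omega
  have h2 : ∑ A ∈ Mo F n, (om A : ℝ) ^ 2 ≤ (Nat.card F : ℝ) ^ n * (SP F n ^ 2 + SP F n) := by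
    have e1 : ∑ A ∈ Mo F n, (om A : ℝ) ^ 2 =
        ∑ P ∈ PP F n, ∑ P' ∈ PP F n, ∑ A ∈ Mo F n,
          (if P ∣ A then (1 : ℝ) else 0) * (if P' ∣ A then (1 : ℝ) else 0) := by
      have e2 : ∀ A ∈ Mo F n, (om A : ℝ) ^ 2 = ∑ P ∈ PP F n, ∑ P' ∈ PP F n,
          (if P ∣ A then (1 : ℝ) else 0) * (if P' ∣ A then (1 : ℝ) else 0) := by
        intro A hA
        rw [hom A hA, sq, Finset.sum_mul_sum]
      rw [Finset.sum_congr rfl e2, Finset.sum_comm]
      refine Finset.sum_congr rfl fun P _ => ?_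
      rw [Finset.sum_comm]
    have e3 : ∀ P ∈ PP F n, ∀ P' ∈ PP F n, ∑ A ∈ Mo F n,
        (if P ∣ A then (1 : ℝ) else 0) * (if P' ∣ A then (1 : ℝ) else 0) ≤
        (Nat.card F : ℝ) ^ n * (1 / (Nat.card F : ℝ) ^ P.natDegree * (1 / (Nat.card F : ℝ) ^ P'.natDegree)) +
        if P' = P then (Nat.card F : ℝ) ^ n * (1 / (Nat.card F : ℝ) ^ P.natDegree) else 0 := by
      intro P hP P' hP'
      have hPm := mem_PP.1 hP
      have hPm' := mem_PP.1 hP'
      by_cases h : P' = P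
      · rw [if_pos h, h]
        have e4 : ∀ A ∈ Mo F n, (if P ∣ A then (1 : ℝ) else 0) * (if P ∣ A then (1 : ℝ) else 0) =
            if P ∣ A then (1 : ℝ) else 0 := by
          intro A _
          split_ifs <;> norm_num
        rw [Finset.sum_congr rfl e4]
        have := card_dvd_le hPm.1 n
        rw [← mul_one_div] at this
        have h0 : 0 ≤ (Nat.card F : ℝ) ^ n *
            (1 / (Nat.card F : ℝ) ^ P.natDegree * (1 / (Nat.card F : ℝ) ^ P.natDegree)) := by positivity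
        linarith
      · rw [if_neg h, add_zero]
        have hcop : IsCoprime P P' := by
          rw [hPm.2.1.coprime_iff_not_dvd]
          intro hd
          exact h (eq_of_monic_of_associated hPm.1 hPm'.1
            (hPm.2.1.associated_of_dvd hPm'.2.1 hd)).symm
        have e4 : ∀ A ∈ Mo F n, (if P ∣ A then (1 : ℝ) else 0) * (if P' ∣ A then (1 : ℝ) else 0) =
            if P * P' ∣ A then (1 : ℝ) else 0 := by
          intro A _
          by_cases h1 : P ∣ A
          · by_cases h2 : P' ∣ A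
            · rw [if_pos h1, if_pos h2, if_pos (hcop.mul_dvd h1 h2), mul_one]
            · rw [if_neg h2, if_neg (fun h3 => h2 ((dvd_mul_left _ _).trans h3)), mul_zero]
          · rw [if_neg h1, if_neg (fun h3 => h1 ((dvd_mul_right _ _).trans h3)), zero_mul]
        rw [Finset.sum_congr rfl e4]
        have := card_dvd_le (hPm.1.mul hPm'.1) n
        rw [hPm.1.natDegree_mul hPm'.1] at this
        refine this.trans (le_of_eq ?_)
        rw [pow_add, one_div_mul_one_div, mul_one_div]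
    rw [e1]
    refine (Finset.sum_le_sum fun P hP => Finset.sum_le_sum fun P' hP' => e3 P hP P' hP').trans ?_
    have e5 : ∑ P ∈ PP F n, ∑ P' ∈ PP F n, ((Nat.card F : ℝ) ^ n *
        (1 / (Nat.card F : ℝ) ^ P.natDegree * (1 / (Nat.card F : ℝ) ^ P'.natDegree)) +
        if P' = P then (Nat.card F : ℝ) ^ n * (1 / (Nat.card F : ℝ) ^ P.natDegree) else 0) =
        (Nat.card F : ℝ) ^ n * (SP F n ^ 2 + SP F n) := by
      have e6 : ∀ P ∈ PP F n, ∑ P' ∈ PP F n, ((Nat.card F : ℝ) ^ n *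
        (1 / (Nat.card F : ℝ) ^ P.natDegree * (1 / (Nat.card F : ℝ) ^ P'.natDegree)) +
        if P' = P then (Nat.card F : ℝ) ^ n * (1 / (Nat.card F : ℝ) ^ P.natDegree) else 0) =
        (Nat.card F : ℝ) ^ n * ((1 / (Nat.card F : ℝ) ^ P.natDegree) * SP F n +
          1 / (Nat.card F : ℝ) ^ P.natDegree) := by
        intro P hP
        rw [Finset.sum_add_distrib, Finset.sum_ite_eq' , if_pos hP, ← Finset.mul_sum,
          ← Finset.mul_sum, sum_PP_inv]
        ring
      rw [Finset.sum_congr rfl e6, ← Finset.mul_sum, Finset.sum_add_distrib, ← Finset.sum_mul,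
        sum_PP_inv]
      ring
    rw [e5]
  have h3 : ∑ A ∈ Mo F n, ((om A : ℝ) - SP F n) ^ 2 =
      ∑ A ∈ Mo F n, (om A : ℝ) ^ 2 - 2 * SP F n * ∑ A ∈ Mo F n, (om A : ℝ) +
        (Nat.card F : ℝ) ^ n * SP F n ^ 2 := by
    have e : ∀ A ∈ Mo F n, ((om A : ℝ) - SP F n) ^ 2 =
        (om A : ℝ) ^ 2 - 2 * SP F n * (om A : ℝ) + SP F n ^ 2 := by intro A _; ring
    rw [Finset.sum_congr rfl e, Finset.sum_add_distrib, Finset.sum_sub_distrib, ← Finset.mul_sum,
      Finset.sum_const, card_Mo, nsmul_eq_mul]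
    push_cast
    ring
  rw [h3, h1]
  nlinarith [h2]

end Pool.Agent.H74.ST
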