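import Pool.Agent.H94.PS.Defs
import Pool.Agent.H74.ST.Tk

set_option autoImplicit false

/-!
# Most triples are typical
-/

namespace Pool.Agent.H74.ST

open Polynomial Pool.Agent.H94.PC Pool.Agent.H94.PS

variable {F : Type} [Field F] [Finite F]

theorem pf_C_mul {c : F} (hc : c ≠ 0) (A : F[X]) : pf (C c * A) = pf A := by
  classical
  by_cases hA : A = 0
  · rw [hA, mul_zero]
  · have hcA : C c * A ≠ 0 := mul_ne_zero (C_ne_zero.2 hc) hA
    ext P
    rw [mem_pf hcA, mem_pf hA]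
    have hu : IsUnit (C c : F[X]) := isUnit_C.2 hc.isUnit
    have : P ∣ C c * A ↔ P ∣ A := by
      rw [mul_comm]; exact hu.dvd_mul_right
    rw [this]

theorem om_C_mul {c : F} (hc : c ≠ 0) (A : F[X]) : om (C c * A) = om A := by
  unfold om; rw [pf_C_mul hc]

theorem omt_C_mul {c : F} (hc : c ≠ 0) (y : ℕ) (A : F[X]) : omt y (C c * A) = omt y A := by
  unfold omt; rw [pf_C_mul hc]

/-- a nonzero polynomial is a constant times a monic polynomial -/
theorem exists_monic_mul {Z : F[X]} (hZ : Z ≠ 0) :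
    ∃ A : F[X], A.Monic ∧ A.natDegree = Z.natDegree ∧ Z = C Z.leadingCoeff * A := by
  have hl : Z.leadingCoeff ≠ 0 := leadingCoeff_ne_zero.2 hZ
  refine ⟨C Z.leadingCoeff⁻¹ * Z, ?_, ?_, ?_⟩
  · rw [Monic, leadingCoeff_mul, leadingCoeff_C, inv_mul_cancel₀ hl]
  · rw [natDegree_C_mul (inv_ne_zero hl)]
  · rw [← mul_assoc, ← C_mul, mul_inv_cancel₀ hl, C_1, one_mul]

/-- non typical monic polynomials -/
def NT (d : ℕ) (A : F[X]) : Prop :=
  ¬ (|(om A : ℝ) - Real.log d| ≤ Real.log d ^ (3 / 4 : ℝ) ∧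
    (omt (thr d) A : ℝ) ≤ Real.log d ^ (3 / 4 : ℝ))

open Classical in
theorem card_NT_le {d : ℕ} (hx : (32 : ℝ) ^ 4 ≤ Real.log d) :
    (((Mo F d).filter fun A => NT d A).card : ℝ) ≤
      20 * Real.log d ^ (-(1 / 2) : ℝ) * (Nat.card F : ℝ) ^ d := by
  set x := Real.log d with hxd
  have hx1 : (1 : ℝ) ≤ x := le_trans (by norm_num) hx
  have hx0 : (0 : ℝ) < x := by linarith
  have hq : (0 : ℝ) < (Nat.card F : ℝ) := by exact_mod_cast (Nat.card_pos : 0 < Nat.card F)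
  have hd1 : 1 ≤ d := by
    rcases Nat.eq_zero_or_pos d with h | h
    · exfalso
      rw [hxd, h] at hx1
      norm_num at hx1
    · exact h
  have hS1 : SP F d ≤ 1 + x := SP_le_log hd1
  have hS2 : x ≤ SP F d + 4 := log_le_SP' hd1
  -- powers of x
  have hp34 : (8 : ℝ) ≤ x ^ (3 / 4 : ℝ) := by
    have h1 : ((32 : ℝ) ^ 4) ^ (3 / 4 : ℝ) ≤ x ^ (3 / 4 : ℝ) :=
      Real.rpow_le_rpow (by norm_num) hx (by norm_num)
    have h2 : ((32 : ℝ) ^ 4) ^ (3 / 4 : ℝ) = 32 ^ 3 := by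
      rw [← Real.rpow_natCast, ← Real.rpow_mul (by norm_num)]
      norm_num
    rw [h2] at h1
    linarith
  -- first part
  have hA : (((Mo F d).filter fun A => ¬ |(om A : ℝ) - x| ≤ x ^ (3 / 4 : ℝ)).card : ℝ) ≤
      8 * x ^ (-(1 / 2) : ℝ) * (Nat.card F : ℝ) ^ d := by
    have h1 : (((Mo F d).filter fun A => ¬ |(om A : ℝ) - x| ≤ x ^ (3 / 4 : ℝ)).card : ℝ) *
        (x ^ (3 / 4 : ℝ) / 2) ^ 2 ≤ ∑ A ∈ Mo F d, ((om A : ℝ) - SP F d) ^ 2 := by
      have h2 : ∑ A ∈ (Mo F d).filter (fun A => ¬ |(om A : ℝ) - x| ≤ x ^ (3 / 4 : ℝ)),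
          ((om A : ℝ) - SP F d) ^ 2 ≤ ∑ A ∈ Mo F d, ((om A : ℝ) - SP F d) ^ 2 :=
        Finset.sum_le_sum_of_subset_of_nonneg (Finset.filter_subset _ _) fun A _ _ => sq_nonneg _
      refine le_trans ?_ h2
      rw [← nsmul_eq_mul, ← Finset.sum_const]
      refine Finset.sum_le_sum fun A hA => ?_
      have h3 := (Finset.mem_filter.1 hA).2
      rw [not_le] at h3
      rw [← sq_abs ((om A : ℝ) - SP F d)]
      refine pow_le_pow_left₀ (by positivity) ?_ 2
      have h4 : |(om A : ℝ) - x| ≤ |(om A : ℝ) - SP F d| + |SP F d - x| := by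
        have := abs_add_le ((om A : ℝ) - SP F d) (SP F d - x)
        have e : (om A : ℝ) - SP F d + (SP F d - x) = (om A : ℝ) - x := by ring
        rwa [e] at this
      have h5 : |SP F d - x| ≤ 4 := by
        rw [abs_le]; constructor <;> linarith
      linarith
    have h6 := turan (F := F) d
    have h7 : (x ^ (3 / 4 : ℝ) / 2) ^ 2 = x ^ (3 / 2 : ℝ) / 4 := by
      rw [div_pow, ← Real.rpow_natCast (x ^ (3 / 4 : ℝ)), ← Real.rpow_mul hx0.le]
      norm_num
    rw [h7] at h1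
    have h8 : (((Mo F d).filter fun A => ¬ |(om A : ℝ) - x| ≤ x ^ (3 / 4 : ℝ)).card : ℝ) *
        (x ^ (3 / 2 : ℝ) / 4) ≤ (8 * x ^ (-(1 / 2) : ℝ) * (Nat.card F : ℝ) ^ d) * (x ^ (3 / 2 : ℝ) / 4) := by
      refine (h1.trans h6).trans ?_
      have h9 : x ^ (-(1 / 2) : ℝ) * x ^ (3 / 2 : ℝ) = x := by
        rw [← Real.rpow_add hx0]; norm_num
      have h10 : (8 * x ^ (-(1 / 2) : ℝ) * (Nat.card F : ℝ) ^ d) * (x ^ (3 / 2 : ℝ) / 4) =
          (Nat.card F : ℝ) ^ d * (2 * (x ^ (-(1 / 2) : ℝ) * x ^ (3 / 2 : ℝ))) := by ring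
      rw [h10, h9]
      refine mul_le_mul_of_nonneg_left ?_ (pow_pos hq d).le
      linarith
    exact le_of_mul_le_mul_right h8 (by positivity)
  -- second part
  have hB : (((Mo F d).filter fun A => ¬ (omt (thr d) A : ℝ) ≤ x ^ (3 / 4 : ℝ)).card : ℝ) ≤
      12 * x ^ (-(1 / 2) : ℝ) * (Nat.card F : ℝ) ^ d := by
    have h1 : (((Mo F d).filter fun A => ¬ (omt (thr d) A : ℝ) ≤ x ^ (3 / 4 : ℝ)).card : ℝ) *
        x ^ (3 / 4 : ℝ) ≤ ∑ A ∈ Mo F d, (omT (thr d) A : ℝ) := by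
      have h2 : ∑ A ∈ (Mo F d).filter (fun A => ¬ (omt (thr d) A : ℝ) ≤ x ^ (3 / 4 : ℝ)),
          (omT (thr d) A : ℝ) ≤ ∑ A ∈ Mo F d, (omT (thr d) A : ℝ) :=
        Finset.sum_le_sum_of_subset_of_nonneg (Finset.filter_subset _ _) fun A _ _ => Nat.cast_nonneg _
      refine le_trans ?_ h2
      rw [← nsmul_eq_mul, ← Finset.sum_const]
      refine Finset.sum_le_sum fun A hA => ?_
      have h3 := (Finset.mem_filter.1 hA).2
      rw [not_le] at h3
      have h4 : (omt (thr d) A : ℝ) ≤ omT (thr d) A := by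
        have : omt (thr d) A ≤ omT (thr d) A := by
          unfold omt omT
          refine Finset.card_le_card fun P hP => ?_
          have := Finset.mem_filter.1 hP
          exact Finset.mem_filter.2 ⟨this.1, this.2.le⟩
        exact_mod_cast this
      linarith
    have h5 := sum_omT_le (F := F) (thr d) d
    have ht1 : 1 ≤ thr d := by
      unfold thr
      rw [Nat.one_le_ceil_iff]
      positivity
    have h6 : SP F (thr d) ≤ 12 * x ^ (1 / 4 : ℝ) := by
      have h7 : SP F (thr d) ≤ 1 + Real.log (thr d) := SP_le_log ht1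
      have h8 : (thr d : ℝ) ≤ x ^ 2 + 1 := by
        unfold thr
        have := Nat.ceil_lt_add_one (by positivity : (0 : ℝ) ≤ Real.log d ^ 2)
        exact this.le
      have h9 : Real.log (thr d) ≤ Real.log (Real.exp 1 * x ^ 2) := by
        refine Real.log_le_log (by exact_mod_cast ht1) (h8.trans ?_)
        have := Real.exp_one_gt_d9
        nlinarith
      rw [Real.log_mul (Real.exp_pos 1).ne' (by positivity), Real.log_exp, Real.log_pow] at h9
      have h10 : Real.log x ≤ x ^ (1 / 4 : ℝ) / (1 / 4 : ℝ) := Real.log_le_rpow_div hx0.le (by norm_num)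
      have h11 : (1 : ℝ) ≤ x ^ (1 / 4 : ℝ) := Real.one_le_rpow hx1 (by norm_num)
      push_cast at h9
      linarith
    have h12 : (((Mo F d).filter fun A => ¬ (omt (thr d) A : ℝ) ≤ x ^ (3 / 4 : ℝ)).card : ℝ) *
        x ^ (3 / 4 : ℝ) ≤ (12 * x ^ (-(1 / 2) : ℝ) * (Nat.card F : ℝ) ^ d) * x ^ (3 / 4 : ℝ) := by
      refine (h1.trans h5).trans ?_
      have h9 : x ^ (-(1 / 2) : ℝ) * x ^ (3 / 4 : ℝ) = x ^ (1 / 4 : ℝ) := by
        rw [← Real.rpow_add hx0]; norm_num
      have h10 : (12 * x ^ (-(1 / 2) : ℝ) * (Nat.card F : ℝ) ^ d) * x ^ (3 / 4 : ℝ) =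
          (Nat.card F : ℝ) ^ d * (12 * (x ^ (-(1 / 2) : ℝ) * x ^ (3 / 4 : ℝ))) := by ring
      rw [h10, h9]
      exact mul_le_mul_of_nonneg_left h6 (pow_pos hq d).le
    exact le_of_mul_le_mul_right h12 (by positivity)
  have hU : (Mo F d).filter (fun A => NT d A) ⊆
      (Mo F d).filter (fun A => ¬ |(om A : ℝ) - x| ≤ x ^ (3 / 4 : ℝ)) ∪
      (Mo F d).filter (fun A => ¬ (omt (thr d) A : ℝ) ≤ x ^ (3 / 4 : ℝ)) := by
    intro A hA
    rw [Finset.mem_filter] at hA
    rw [Finset.mem_union, Finset.mem_filter, Finset.mem_filter]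
    by_cases h : |(om A : ℝ) - x| ≤ x ^ (3 / 4 : ℝ)
    · right
      exact ⟨hA.1, fun h2 => hA.2 ⟨h, h2⟩⟩
    · left
      exact ⟨hA.1, h⟩
  have hc := (Finset.card_le_card hU).trans (Finset.card_union_le _ _)
  have hc' : (((Mo F d).filter fun A => NT d A).card : ℝ) ≤
      (((Mo F d).filter fun A => ¬ |(om A : ℝ) - x| ≤ x ^ (3 / 4 : ℝ)).card : ℝ) +
      (((Mo F d).filter fun A => ¬ (omt (thr d) A : ℝ) ≤ x ^ (3 / 4 : ℝ)).card : ℝ) := by
    exact_mod_cast hc
  linarith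

/-- triples with `Y i` in a given set of polynomials `c A`, `A ∈ S`: at most `q * #S * q ^ (d + 1)` -/
theorem card_triples_le (d : ℕ) (i : Fin 3) (S : Finset F[X]) (𝒴 : Finset (Fin 3 → F[X]))
    (h𝒴 : ∀ Y ∈ 𝒴, Tr d Y ∧ ∃ A ∈ S, ∃ c : F, Y i = C c * A) :
    (𝒴.card : ℝ) ≤ Nat.card F * S.card * (Nat.card F : ℝ) ^ (d + 1) := by
  classical
  have : Fintype F := Fintype.ofFinite F
  have h1 : 𝒴.card ≤ (((Finset.univ : Finset F) ×ˢ S).image (fun p => C p.1 * p.2) ×ˢ Lt F (d + 1)).card := by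
    refine Finset.card_le_card_of_injOn (fun Y => (Y i, Y (i + 1))) ?_ ?_
    · intro Y hY
      obtain ⟨hT, A, hA, c, hc⟩ := h𝒴 Y hY
      rw [Finset.mem_coe, Finset.mem_product, Finset.mem_image]
      refine ⟨⟨(c, A), Finset.mem_product.2 ⟨Finset.mem_univ _, hA⟩, hc.symm⟩, ?_⟩
      rw [mem_Lt]
      refine lt_of_le_of_lt degree_le_natDegree ?_
      rw [hT.deg]
      exact_mod_cast Nat.lt_succ_self d
    · intro Y hY Y' hY' heq
      rw [Prod.mk.injEq] at heq
      obtain ⟨h2, h3⟩ := heq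
      have hs := (h𝒴 Y hY).1.sum
      have hs' := (h𝒴 Y' hY').1.sum
      have h4 : Y (i + 2) = Y' (i + 2) := by
        fin_cases i
        · have e : Y 2 = -(Y 0 + Y 1) := by linear_combination hs
          have e' : Y' 2 = -(Y' 0 + Y' 1) := by linear_combination hs'
          show Y 2 = Y' 2
          rw [e, e']
          have a1 : Y 0 = Y' 0 := h2
          have a2 : Y 1 = Y' 1 := h3
          rw [a1, a2]
        · have e : Y 0 = -(Y 1 + Y 2) := by linear_combination hs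
          have e' : Y' 0 = -(Y' 1 + Y' 2) := by linear_combination hs'
          show Y 0 = Y' 0
          rw [e, e']
          have a1 : Y 1 = Y' 1 := h2
          have a2 : Y 2 = Y' 2 := h3
          rw [a1, a2]
        · have e : Y 1 = -(Y 2 + Y 0) := by linear_combination hs
          have e' : Y' 1 = -(Y' 2 + Y' 0) := by linear_combination hs'
          show Y 1 = Y' 1
          rw [e, e']
          have a1 : Y 2 = Y' 2 := h2
          have a2 : Y 0 = Y' 0 := h3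
          rw [a1, a2]
      funext j
      fin_cases i <;> fin_cases j <;> first | exact h2 | exact h3 | exact h4
  have h2 : (((Finset.univ : Finset F) ×ˢ S).image (fun p => C p.1 * p.2) ×ˢ Lt F (d + 1)).card ≤
      Nat.card F * S.card * Nat.card F ^ (d + 1) := by
    rw [Finset.card_product, card_Lt]
    refine Nat.mul_le_mul_right _ ?_
    refine Finset.card_image_le.trans ?_
    rw [Finset.card_product, Finset.card_univ, Nat.card_eq_fintype_card]
  exact_mod_cast h1.trans h2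

open Classical in
/-- [ST1] -/
theorem st1 (δ : ℝ) (hδ : 0 < δ) : ∃ d0 : ℕ, ∀ d ≥ d0, ∀ e : ℕ,
    (((Fam F d e).filter fun Y => ¬ Typ d Y).card : ℝ) ≤ δ * (Nat.card F : ℝ) ^ (2 * d) := by
  have hq : (0 : ℝ) < (Nat.card F : ℝ) := by exact_mod_cast (Nat.card_pos : 0 < Nat.card F)
  set X0 : ℝ := max ((32 : ℝ) ^ 4) ((60 * (Nat.card F : ℝ) ^ 2 / δ) ^ 2) with hX0
  have hlim : ∀ᶠ d : ℕ in Filter.atTop, X0 ≤ Real.log d :=
    (Real.tendsto_log_atTop.comp tendsto_natCast_atTop_atTop).eventually_ge_atTop X0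
  obtain ⟨d0, hd0⟩ := Filter.eventually_atTop.1 hlim
  refine ⟨d0, fun d hd e => ?_⟩
  have hx := hd0 d hd
  have hx1 : (32 : ℝ) ^ 4 ≤ Real.log d := (le_max_left _ _).trans hx
  have hx2 : (60 * (Nat.card F : ℝ) ^ 2 / δ) ^ 2 ≤ Real.log d := (le_max_right _ _).trans hx
  have hx0 : 0 < Real.log d := lt_of_lt_of_le (by norm_num) hx1
  have h1 := card_NT_le (F := F) hx1
  have hsub : (Fam F d e).filter (fun Y => ¬ Typ d Y) ⊆
      (Finset.univ : Finset (Fin 3)).biUnion fun i => (Fam F d e).filter fun Y => NT d (Y i) := by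
    intro Y hY
    rw [Finset.mem_filter] at hY
    rw [Finset.mem_biUnion]
    have h2 := hY.2
    unfold Typ at h2
    push Not at h2
    obtain ⟨i, hi⟩ := h2
    refine ⟨i, Finset.mem_univ _, Finset.mem_filter.2 ⟨hY.1, ?_⟩⟩
    unfold NT
    intro h3
    exact absurd h3.2 (not_le.2 (hi h3.1))
  have h2 : ∀ i : Fin 3, ((((Fam F d e).filter fun Y => NT d (Y i)).card : ℕ) : ℝ) ≤
      Nat.card F * ((Mo F d).filter fun A => NT d A).card * (Nat.card F : ℝ) ^ (d + 1) := by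
    intro i
    refine card_triples_le d i _ _ fun Y hY => ?_
    rw [Finset.mem_filter, mem_Fam] at hY
    refine ⟨hY.1.1, ?_⟩
    have hY0 : Y i ≠ 0 := by
      intro h0
      have hs := hY.1.1.sqf
      fin_cases i
      · have h0' : Y 0 = 0 := h0
        rw [h0', zero_mul, zero_mul] at hs; exact not_squarefree_zero hs
      · have h0' : Y 1 = 0 := h0
        rw [h0', mul_zero, zero_mul] at hs; exact not_squarefree_zero hs
      · have h0' : Y 2 = 0 := h0
        rw [h0', mul_zero] at hs; exact not_squarefree_zero hs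
    obtain ⟨A, hA1, hA2, hA3⟩ := exists_monic_mul hY0
    have hl : (Y i).leadingCoeff ≠ 0 := leadingCoeff_ne_zero.2 hY0
    refine ⟨A, Finset.mem_filter.2 ⟨mem_Mo.2 ⟨hA1, hA2.trans (hY.1.1.deg i)⟩, ?_⟩, _, hA3⟩
    have h3 := hY.2
    unfold NT at h3 ⊢
    rw [hA3, om_C_mul hl, omt_C_mul hl] at h3
    exact h3
  have h3 : (((Fam F d e).filter fun Y => ¬ Typ d Y).card : ℝ) ≤
      ∑ i : Fin 3, (((Fam F d e).filter fun Y => NT d (Y i)).card : ℝ) := by
    exact_mod_cast (Finset.card_le_card hsub).trans Finset.card_biUnion_le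
  have h4 := h3.trans (Finset.sum_le_sum fun i _ => h2 i)
  rw [Finset.sum_const, Finset.card_univ, Fintype.card_fin] at h4
  have h5 : Real.log d ^ (-(1 / 2) : ℝ) ≤ δ / (60 * (Nat.card F : ℝ) ^ 2) := by
    have h6 : 60 * (Nat.card F : ℝ) ^ 2 / δ ≤ Real.log d ^ (1 / 2 : ℝ) := by
      have h7 := Real.rpow_le_rpow (by positivity) hx2 (by norm_num : (0 : ℝ) ≤ 1 / 2)
      rw [← Real.rpow_natCast, ← Real.rpow_mul (by positivity)] at h7
      norm_num at h7
      norm_num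
      exact h7
    rw [Real.rpow_neg hx0.le]
    have h8 : δ / (60 * (Nat.card F : ℝ) ^ 2) = (60 * (Nat.card F : ℝ) ^ 2 / δ)⁻¹ := by rw [inv_div]
    rw [h8]
    exact inv_anti₀ (by positivity) h6
  refine h4.trans ?_
  have h6 : (((Mo F d).filter fun A => NT d A).card : ℝ) ≤
      20 * (δ / (60 * (Nat.card F : ℝ) ^ 2)) * (Nat.card F : ℝ) ^ d := by
    refine h1.trans ?_
    refine mul_le_mul_of_nonneg_right ?_ (pow_pos hq d).le
    exact mul_le_mul_of_nonneg_left h5 (by norm_num)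
  have h7 : (3 : ℕ) • ((Nat.card F : ℝ) * ((Mo F d).filter fun A => NT d A).card *
      (Nat.card F : ℝ) ^ (d + 1)) ≤ 3 * ((Nat.card F : ℝ) *
        (20 * (δ / (60 * (Nat.card F : ℝ) ^ 2)) * (Nat.card F : ℝ) ^ d) * (Nat.card F : ℝ) ^ (d + 1)) := by
    rw [nsmul_eq_mul]
    push_cast
    gcongr
  refine h7.trans (le_of_eq ?_)
  have h8 : (Nat.card F : ℝ) ≠ 0 := hq.ne'
  rw [two_mul, pow_add, pow_succ]
  field_simp
  ring

end Pool.Agent.H74.ST
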