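import Pool.Agent.H94.PC.CSum
import Pool.Agent.H74.ST.Tk

set_option autoImplicit false

/-!
# Quadratic characters on monic polynomials and their sums over divisors

`chi N e f = e ^ deg f * js N f`, `rr N e B = ∑_{f ∣ B} chi N e f ≥ 0`, and
`∑_{deg B = n} rr B = ∑_{j ≤ n} q ^ (n - j) S_j` with `S_j = 0` for `j ≥ deg N`.
-/

namespace Pool.Agent.H74.ST

open Polynomial Pool.Agent.H94.PC

section
variable {F : Type} [Field F]

/-- the quadratic character `f ↦ e ^ deg f (N / f)` -/
noncomputable def chi (N : F[X]) (e : ℝ) (f : F[X]) : ℝ := e ^ f.natDegree * js N f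

end

variable {F : Type} [Field F] [Finite F]

theorem chi_one (N : F[X]) (e : ℝ) : chi N e 1 = 1 := by
  unfold chi; rw [natDegree_one, pow_zero, one_mul, js_one_right]

theorem chi_mul (N : F[X]) (e : ℝ) {f g : F[X]} (hf : f.Monic) (hg : g.Monic) :
    chi N e (f * g) = chi N e f * chi N e g := by
  unfold chi
  rw [hf.natDegree_mul hg, js_mul_right N hf hg, pow_add]; ring

theorem chi_cases (N : F[X]) {e : ℝ} (he : e = 1 ∨ e = -1) (f : F[X]) :
    chi N e f = 0 ∨ chi N e f = 1 ∨ chi N e f = -1 := by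
  unfold chi
  have h1 : e ^ f.natDegree = 1 ∨ e ^ f.natDegree = -1 := by
    rcases he with rfl | rfl
    · left; exact one_pow _
    · exact neg_one_pow_eq_or ℝ _
  rcases js_cases N f with h | h | h <;> rcases h1 with h1 | h1 <;> rw [h, h1] <;> norm_num

theorem abs_chi_le (N : F[X]) {e : ℝ} (he : e = 1 ∨ e = -1) (f : F[X]) : |chi N e f| ≤ 1 := by
  rcases chi_cases N he f with h | h | h <;> rw [h] <;> norm_num

theorem finite_md {B : F[X]} (hB : B ≠ 0) : {f : F[X] | f.Monic ∧ f ∣ B}.Finite :=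
  (finite_natDegree_le F B.natDegree).subset fun _ h => natDegree_le_of_dvd h.2 hB

/-- the monic divisors (none for `B = 0`) -/
noncomputable def md (B : F[X]) : Finset F[X] := by
  classical exact if h : B = 0 then ∅ else (finite_md h).toFinset

theorem mem_md {B f : F[X]} (hB : B ≠ 0) : f ∈ md B ↔ f.Monic ∧ f ∣ B := by
  rw [md, dif_neg hB, Set.Finite.mem_toFinset]; rfl

/-- the sum of the character over the monic divisors -/
noncomputable def rr (N : F[X]) (e : ℝ) (B : F[X]) : ℝ := ∑ f ∈ md B, chi N e f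

theorem rr_mul (N : F[X]) (e : ℝ) {x y : F[X]} (hx : x ≠ 0) (hy : y ≠ 0) (h : IsRelPrime x y) :
    rr N e (x * y) = rr N e x * rr N e y := by
  classical
  unfold rr
  rw [Finset.sum_mul_sum, ← Finset.sum_product']
  symm
  refine Finset.sum_bij (fun p _ => p.1 * p.2) ?_ ?_ ?_ ?_
  · rintro ⟨a, b⟩ hp
    rw [Finset.mem_product, mem_md hx, mem_md hy] at hp
    rw [mem_md (mul_ne_zero hx hy)]
    exact ⟨hp.1.1.mul hp.2.1, mul_dvd_mul hp.1.2 hp.2.2⟩
  · rintro ⟨a, b⟩ hp ⟨a', b'⟩ hp' heq
    rw [Finset.mem_product, mem_md hx, mem_md hy] at hp hp'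
    simp only at hp hp' heq
    have h1 : IsRelPrime a b' := fun d hd hd' => h (hd.trans hp.1.2) (hd'.trans hp'.2.2)
    have h2 : IsRelPrime a' b := fun d hd hd' => h (hd.trans hp'.1.2) (hd'.trans hp.2.2)
    have h3 : a ∣ a' := h1.dvd_of_dvd_mul_right (heq ▸ dvd_mul_right a b)
    have h4 : a' ∣ a := h2.dvd_of_dvd_mul_right (heq ▸ dvd_mul_right a' b')
    have h5 : a = a' := eq_of_monic_of_associated hp.1.1 hp'.1.1 (associated_of_dvd_dvd h3 h4)
    subst h5
    have h6 : b = b' := mul_left_cancel₀ hp.1.1.ne_zero heq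
    rw [h6]
  · intro f hf
    rw [mem_md (mul_ne_zero hx hy)] at hf
    obtain ⟨a, b, ha, hb, hab⟩ := exists_dvd_and_dvd_of_dvd_mul hf.2
    have hf0 : f ≠ 0 := hf.1.ne_zero
    have ha0 : a ≠ 0 := by rintro rfl; rw [zero_mul] at hab; exact hf0 hab
    have hb0 : b ≠ 0 := by rintro rfl; rw [mul_zero] at hab; exact hf0 hab
    refine ⟨(normalize a, normalize b), ?_, ?_⟩
    · rw [Finset.mem_product, mem_md hx, mem_md hy]
      exact ⟨⟨monic_normalize ha0, normalize_dvd_iff.2 ha⟩,
        ⟨monic_normalize hb0, normalize_dvd_iff.2 hb⟩⟩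
    · show normalize a * normalize b = f
      rw [← normalize_mul, ← hab, hf.1.normalize_eq_self]
  · rintro ⟨a, b⟩ hp
    rw [Finset.mem_product, mem_md hx, mem_md hy] at hp
    exact (chi_mul N e hp.1.1 hp.2.1).symm

theorem chi_pow (N : F[X]) (e : ℝ) {P : F[X]} (hP : P.Monic) (i : ℕ) :
    chi N e (P ^ i) = chi N e P ^ i := by
  induction i with
  | zero => rw [pow_zero, pow_zero, chi_one]
  | succ n ih => rw [pow_succ, chi_mul N e (hP.pow n) hP, ih, pow_succ]

theorem geom_nonneg {x : ℝ} (hx : x = 0 ∨ x = 1 ∨ x = -1) (i : ℕ) :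
    0 ≤ ∑ j ∈ Finset.range (i + 1), x ^ j := by
  rcases hx with rfl | rfl | rfl
  · exact Finset.sum_nonneg fun j _ => by positivity
  · exact Finset.sum_nonneg fun j _ => by positivity
  · have h : ∑ j ∈ Finset.range (i + 1), (-1 : ℝ) ^ j = if Even (i + 1) then 0 else 1 :=
      neg_one_geom_sum
    rw [h]; split_ifs <;> norm_num

theorem rr_nonneg (N : F[X]) {e : ℝ} (he : e = 1 ∨ e = -1) (B : F[X]) : 0 ≤ rr N e B := by
  classical
  refine UniqueFactorizationMonoid.induction_on_coprime (P := fun B => 0 ≤ rr N e B) B ?_ ?_ ?_ ?_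
  · show 0 ≤ rr N e 0
    unfold rr md
    rw [dif_pos rfl, Finset.sum_empty]
  · intro x hx
    show 0 ≤ rr N e x
    have h1 : md x = {1} := by
      ext f
      rw [mem_md hx.ne_zero, Finset.mem_singleton]
      constructor
      · rintro ⟨h1, h2⟩
        exact h1.eq_one_of_isUnit (isUnit_of_dvd_unit h2 hx)
      · rintro rfl
        exact ⟨monic_one, one_dvd _⟩
    unfold rr
    rw [h1, Finset.sum_singleton, chi_one]
    norm_num
  · intro p i hp
    show 0 ≤ rr N e (p ^ i)
    have hp0 : p ≠ 0 := hp.ne_zero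
    have hP : (normalize p).Monic := monic_normalize hp0
    have hass : Associated (normalize p) p := normalize_associated p
    have hPp : Prime (normalize p) := hass.symm.prime hp
    have h1 : md (p ^ i) = (Finset.range (i + 1)).image fun j => normalize p ^ j := by
      ext f
      rw [mem_md (pow_ne_zero i hp0), Finset.mem_image]
      constructor
      · rintro ⟨h1, h2⟩
        obtain ⟨j, hj, hj2⟩ := (dvd_prime_pow hp i).1 h2
        refine ⟨j, Finset.mem_range.2 (by omega), ?_⟩
        refine (eq_of_monic_of_associated h1 (hP.pow j) ?_).symm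
        exact hj2.trans (hass.symm.pow_pow)
      · rintro ⟨j, hj, rfl⟩
        rw [Finset.mem_range] at hj
        refine ⟨hP.pow j, ?_⟩
        refine (pow_dvd_pow _ (by omega : j ≤ i)).trans ?_
        exact (hass.pow_pow).dvd
    unfold rr
    rw [h1, Finset.sum_image]
    · rw [Finset.sum_congr rfl (fun j _ => chi_pow N e hP j)]
      exact geom_nonneg (chi_cases N he _) i
    · intro j _ j' _ hjj
      have h2 := congrArg natDegree hjj
      rw [natDegree_pow, natDegree_pow] at h2
      exact Nat.eq_of_mul_eq_mul_right hPp.irreducible.natDegree_pos h2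
  · intro x y hxy hx hy
    show 0 ≤ rr N e (x * y)
    by_cases hx0 : x = 0
    · rw [hx0, zero_mul]; unfold rr md; rw [dif_pos rfl, Finset.sum_empty]
    by_cases hy0 : y = 0
    · rw [hy0, mul_zero]; unfold rr md; rw [dif_pos rfl, Finset.sum_empty]
    rw [rr_mul N e hx0 hy0 hxy]
    exact mul_nonneg hx hy

/-- character sums -/
noncomputable def SS (N : F[X]) (e : ℝ) (j : ℕ) : ℝ := ∑ f ∈ Mo F j, chi N e f

theorem SS_eq_zero (h2 : (2 : F) ≠ 0) {N : F[X]} (hN : N.Monic) (hs : ¬ IsSquare N) (e : ℝ) {j : ℕ}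
    (hj : N.natDegree ≤ j) : SS N e j = 0 := by
  unfold SS chi
  have h1 : ∑ f ∈ Mo F j, e ^ f.natDegree * js N f = e ^ j * ∑ f ∈ Mo F j, js N f := by
    rw [Finset.mul_sum]
    refine Finset.sum_congr rfl fun f hf => ?_
    rw [(mem_Mo.1 hf).2]
  rw [h1, sum_js_left h2 hN hs hj, mul_zero]

theorem SS_le (N : F[X]) {e : ℝ} (he : e = 1 ∨ e = -1) (j : ℕ) : SS N e j ≤ (Nat.card F : ℝ) ^ j := by
  unfold SS
  refine (Finset.sum_le_sum fun f _ => (le_abs_self _).trans (abs_chi_le N he f)).trans ?_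
  rw [Finset.sum_const, card_Mo, nsmul_eq_mul, mul_one]
  push_cast
  exact le_rfl

theorem sum_rr (N : F[X]) (e : ℝ) (n : ℕ) :
    ∑ B ∈ Mo F n, rr N e B =
      ∑ j ∈ Finset.range (n + 1), (Nat.card F : ℝ) ^ (n - j) * SS N e j := by
  classical
  have h1 : ∀ B ∈ Mo F n, rr N e B = ∑ j ∈ Finset.range (n + 1), ∑ f ∈ Mo F j,
      chi N e f * (if f ∣ B then (1 : ℝ) else 0) := by
    intro B hB
    have hB0 := (mem_Mo.1 hB).1.ne_zero
    unfold rr
    rw [← Finset.sum_biUnion (f := fun f => chi N e f * (if f ∣ B then (1 : ℝ) else 0))]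
    · have h3 : ∀ f ∈ md B, chi N e f = chi N e f * (if f ∣ B then (1 : ℝ) else 0) := by
        intro f hf
        rw [if_pos ((mem_md hB0).1 hf).2, mul_one]
      rw [Finset.sum_congr rfl h3]
      apply Finset.sum_subset
      · intro f hf
        have h4 := (mem_md hB0).1 hf
        rw [Finset.mem_biUnion]
        refine ⟨f.natDegree, ?_, mem_Mo.2 ⟨h4.1, rfl⟩⟩
        have := natDegree_le_of_dvd h4.2 hB0
        rw [(mem_Mo.1 hB).2] at this
        rw [Finset.mem_range]; omega
      · intro f hf hf2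
        rw [Finset.mem_biUnion] at hf
        obtain ⟨j, _, hj⟩ := hf
        rw [if_neg, mul_zero]
        intro hd
        exact hf2 ((mem_md hB0).2 ⟨(mem_Mo.1 hj).1, hd⟩)
    · intro i _ j _ hij
      rw [Function.onFun, Finset.disjoint_left]
      intro f hf hf'
      exact hij ((mem_Mo.1 hf).2.symm.trans (mem_Mo.1 hf').2)
  rw [Finset.sum_congr rfl h1, Finset.sum_comm]
  refine Finset.sum_congr rfl fun j hj => ?_
  rw [Finset.sum_comm]
  unfold SS
  rw [Finset.mul_sum]
  refine Finset.sum_congr rfl fun f hf => ?_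
  have hf' := mem_Mo.1 hf
  rw [← Finset.mul_sum, card_dvd hf'.1 (by rw [hf'.2]; rw [Finset.mem_range] at hj; omega), hf'.2]
  ring

/-- the weighted sum of `rr` up to degree `n` is at most `n * deg N` -/
theorem sum_rr_le (h2 : (2 : F) ≠ 0) {N : F[X]} (hN : N.Monic) (hs : ¬ IsSquare N) {e : ℝ}
    (he : e = 1 ∨ e = -1) (n : ℕ) :
    ∑ m ∈ Finset.range n, (∑ B ∈ Mo F m, rr N e B) / (Nat.card F : ℝ) ^ m ≤ n * N.natDegree := by
  have hq : (0 : ℝ) < (Nat.card F : ℝ) := by exact_mod_cast (Nat.card_pos : 0 < Nat.card F)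
  have h1 : ∀ m ∈ Finset.range n, (∑ B ∈ Mo F m, rr N e B) / (Nat.card F : ℝ) ^ m ≤ N.natDegree := by
    intro m _
    rw [sum_rr, Finset.sum_div]
    have h3 : ∀ j ∈ Finset.range (m + 1),
        (Nat.card F : ℝ) ^ (m - j) * SS N e j / (Nat.card F : ℝ) ^ m ≤
          if j < N.natDegree then 1 else 0 := by
      intro j hj
      rw [Finset.mem_range] at hj
      split_ifs with h4
      · rw [div_le_one (pow_pos hq _)]
        refine (mul_le_mul_of_nonneg_left (SS_le N he j) (pow_pos hq _).le).trans ?_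
        rw [← pow_add, show m - j + j = m by omega]
      · rw [SS_eq_zero h2 hN hs e (not_lt.1 h4), mul_zero, zero_div]
    refine (Finset.sum_le_sum h3).trans ?_
    rw [← Finset.sum_filter, Finset.sum_const, nsmul_eq_mul, mul_one]
    have h5 : ((Finset.range (m + 1)).filter fun j => j < N.natDegree).card ≤ N.natDegree := by
      refine (Finset.card_le_card (t := Finset.range N.natDegree) ?_).trans (by rw [Finset.card_range])
      intro j hj
      rw [Finset.mem_filter] at hj
      exact Finset.mem_range.2 hj.2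
    exact_mod_cast h5
  refine (Finset.sum_le_sum h1).trans ?_
  rw [Finset.sum_const, Finset.card_range, nsmul_eq_mul]

end Pool.Agent.H74.ST
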