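import Pool.Agent.H74.ST.Chi

set_option autoImplicit false

/-!
# Squarefree polynomials whose primes of degree `> T` all satisfy `chi N e P = 1`

Their proportion is at most `3 T √(2 deg N / n)`.
-/

namespace Pool.Agent.H74.ST

open Polynomial Pool.Agent.H94.PC

variable {F : Type} [Field F] [Finite F]

/-- all monic irreducible divisors of degree `> T` have character value `1` -/
def Cl (N : F[X]) (e : ℝ) (T : ℕ) (A : F[X]) : Prop :=
  ∀ P : F[X], P.Monic → Irreducible P → P ∣ A → T < P.natDegree → chi N e P = 1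

/-- all monic irreducible divisors have degree `> T` and character value `1` -/
def Cm (N : F[X]) (e : ℝ) (T : ℕ) (A : F[X]) : Prop :=
  ∀ P : F[X], P.Monic → Irreducible P → P ∣ A → T < P.natDegree ∧ chi N e P = 1

/-- monic polynomials of degree `< n` -/
noncomputable def Ml (F : Type) [Field F] [Finite F] (n : ℕ) : Finset F[X] := by
  classical exact (Finset.range n).biUnion fun m => Mo F m

theorem mem_Ml {n : ℕ} {f : F[X]} : f ∈ Ml F n ↔ f.Monic ∧ f.natDegree < n := by
  classical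
  unfold Ml
  rw [Finset.mem_biUnion]
  constructor
  · rintro ⟨m, hm, hf⟩
    have h := mem_Mo.1 hf
    exact ⟨h.1, by rw [h.2]; exact Finset.mem_range.1 hm⟩
  · rintro ⟨h1, h2⟩
    exact ⟨f.natDegree, Finset.mem_range.2 h2, mem_Mo.2 ⟨h1, rfl⟩⟩

theorem sum_Ml (n : ℕ) (f : F[X] → ℝ) :
    ∑ B ∈ Ml F n, f B = ∑ m ∈ Finset.range n, ∑ B ∈ Mo F m, f B := by
  classical
  unfold Ml
  rw [Finset.sum_biUnion]
  intro i _ j _ hij
  rw [Function.onFun, Finset.disjoint_left]
  intro P hP hP'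
  exact hij ((mem_Mo.1 hP).2.symm.trans (mem_Mo.1 hP').2)

open Classical in
/-- squarefree members of `Cl` of degree `< n` -/
noncomputable def GG (N : F[X]) (e : ℝ) (T n : ℕ) : Finset F[X] :=
  (Ml F n).filter fun A => Squarefree A ∧ Cl N e T A

open Classical in
/-- squarefree members of `Cm` of degree `< n` -/
noncomputable def MM (N : F[X]) (e : ℝ) (T n : ℕ) : Finset F[X] :=
  (Ml F n).filter fun A => Squarefree A ∧ Cm N e T A

/-- `1 / |B|` -/
noncomputable def iv (B : F[X]) : ℝ := 1 / (Nat.card F : ℝ) ^ B.natDegree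

omit [Finite F] in
theorem iv_nonneg (B : F[X]) : 0 ≤ iv B := by unfold iv; positivity

omit [Finite F] in
theorem iv_mul {A B : F[X]} (hA : A.Monic) (hB : B.Monic) : iv (A * B) = iv A * iv B := by
  unfold iv
  rw [hA.natDegree_mul hB, pow_add, one_div_mul_one_div]

/-- a monic polynomial all of whose primes have character `1` has character `1` -/
theorem chi_eq_one {N : F[X]} {e : ℝ} (f : F[X]) (hf : f.Monic)
    (h : ∀ P : F[X], P.Monic → Irreducible P → P ∣ f → chi N e P = 1) : chi N e f = 1 := by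
  obtain ⟨n, hn⟩ : ∃ n, f.natDegree = n := ⟨_, rfl⟩
  induction n using Nat.strong_induction_on generalizing f with
  | _ n ih =>
    by_cases hu : IsUnit f
    · rw [hf.eq_one_of_isUnit hu, chi_one]
    · obtain ⟨P, hP1, hP2, hP3⟩ := exists_monic_irreducible_factor f hu
      obtain ⟨g, hg⟩ := hP3
      have hg2 : g.Monic := hP1.of_mul_monic_left (hg ▸ hf)
      have hd : g.natDegree < n := by
        rw [← hn, hg, hP1.natDegree_mul hg2]
        have := hP2.natDegree_pos
        omega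
      rw [hg, chi_mul N e hP1 hg2, h P hP1 hP2 (hg ▸ dvd_mul_right P g), one_mul]
      exact ih g.natDegree hd g hg2 (fun Q hQ1 hQ2 hQ3 => h Q hQ1 hQ2 (hQ3.trans (hg ▸ dvd_mul_left g P)))
        rfl

theorem MM_sq_le (h2 : (2 : F) ≠ 0) {N : F[X]} (hN : N.Monic) (hs : ¬ IsSquare N) {e : ℝ}
    (he : e = 1 ∨ e = -1) (T n : ℕ) :
    (∑ B ∈ MM N e T n, iv B) ^ 2 ≤ 2 * n * N.natDegree := by
  classical
  have h1 := sum_rr_le h2 hN hs he (2 * n)
  push_cast at h1
  refine le_trans ?_ h1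
  have h3 : ∑ m ∈ Finset.range (2 * n), (∑ B ∈ Mo F m, rr N e B) / (Nat.card F : ℝ) ^ m =
      ∑ B ∈ Ml F (2 * n), rr N e B * iv B := by
    rw [sum_Ml]
    refine Finset.sum_congr rfl fun m _ => ?_
    rw [Finset.sum_div]
    refine Finset.sum_congr rfl fun B hB => ?_
    unfold iv
    rw [(mem_Mo.1 hB).2, mul_one_div]
  rw [h3, sq, Finset.sum_mul_sum, ← Finset.sum_product']
  have hmem : ∀ p ∈ MM N e T n ×ˢ MM N e T n, p.1 * p.2 ∈ Ml F (2 * n) := by
    rintro ⟨a, b⟩ hp
    rw [Finset.mem_product] at hp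
    unfold MM at hp
    rw [Finset.mem_filter, Finset.mem_filter, mem_Ml, mem_Ml] at hp
    rw [mem_Ml]
    refine ⟨hp.1.1.1.mul hp.2.1.1, ?_⟩
    show (a * b).natDegree < 2 * n
    rw [hp.1.1.1.natDegree_mul hp.2.1.1]
    have h4 : a.natDegree < n := hp.1.1.2
    have h5 : b.natDegree < n := hp.2.1.2
    omega
  rw [← Finset.sum_fiberwise_of_maps_to hmem]
  refine Finset.sum_le_sum fun B hB => ?_
  have hBm := mem_Ml.1 hB
  have h6 : ∀ p ∈ (MM N e T n ×ˢ MM N e T n).filter (fun p => p.1 * p.2 = B),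
      iv p.1 * iv p.2 = iv B := by
    rintro ⟨a, b⟩ hp
    rw [Finset.mem_filter, Finset.mem_product] at hp
    obtain ⟨hp, hab⟩ := hp
    unfold MM at hp
    rw [Finset.mem_filter, Finset.mem_filter, mem_Ml, mem_Ml] at hp
    rw [← hab]
    exact (iv_mul hp.1.1.1 hp.2.1.1).symm
  rw [Finset.sum_congr rfl h6, Finset.sum_const, nsmul_eq_mul]
  refine mul_le_mul_of_nonneg_right ?_ (iv_nonneg B)
  rcases Finset.eq_empty_or_nonempty ((MM N e T n ×ˢ MM N e T n).filter (fun p => p.1 * p.2 = B)) with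
    h7 | ⟨⟨a, b⟩, hab⟩
  · rw [h7, Finset.card_empty]
    push_cast
    exact rr_nonneg N he B
  · rw [Finset.mem_filter, Finset.mem_product] at hab
    obtain ⟨hp, hab⟩ := hab
    unfold MM at hp
    rw [Finset.mem_filter, Finset.mem_filter, mem_Ml, mem_Ml] at hp
    have hall : ∀ f ∈ md B, chi N e f = 1 := by
      intro f hf
      have hf' := (mem_md hBm.1.ne_zero).1 hf
      refine chi_eq_one f hf'.1 fun P hP1 hP2 hP3 => ?_
      have h8 : P ∣ a * b := by
        have : P ∣ B := hP3.trans hf'.2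
        rw [← hab] at this
        exact this
      rcases hP2.prime.dvd_or_dvd h8 with h9 | h9
      · exact (hp.1.2.2 P hP1 hP2 h9).2
      · exact (hp.2.2.2 P hP1 hP2 h9).2
    have h10 : rr N e B = (md B).card := by
      unfold rr
      rw [Finset.sum_congr rfl hall, Finset.sum_const, nsmul_eq_mul, mul_one]
    rw [h10]
    have h11 : ((MM N e T n ×ˢ MM N e T n).filter (fun p => p.1 * p.2 = B)).card ≤ (md B).card := by
      refine Finset.card_le_card_of_injOn (fun p => p.1) ?_ ?_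
      · rintro ⟨c, d⟩ hcd
        rw [Finset.mem_coe, Finset.mem_filter, Finset.mem_product] at hcd
        obtain ⟨hq, hcd⟩ := hcd
        unfold MM at hq
        rw [Finset.mem_filter, Finset.mem_filter, mem_Ml, mem_Ml] at hq
        rw [Finset.mem_coe, mem_md hBm.1.ne_zero]
        exact ⟨hq.1.1.1, ⟨d, hcd.symm⟩⟩
      · rintro ⟨c, d⟩ hcd ⟨c', d'⟩ hcd' heq
        rw [Finset.mem_coe, Finset.mem_filter, Finset.mem_product] at hcd hcd'
        obtain ⟨hq, hcd⟩ := hcd
        obtain ⟨hq', hcd'⟩ := hcd'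
        unfold MM at hq hq'
        rw [Finset.mem_filter, Finset.mem_filter, mem_Ml, mem_Ml] at hq hq'
        simp only at hcd hcd' heq hq hq'
        subst heq
        have : d = d' := mul_left_cancel₀ hq.1.1.1.ne_zero (hcd.trans hcd'.symm)
        rw [this]
    exact_mod_cast h11

/-- the product of the monic irreducible divisors of degree at most `T` -/
noncomputable def tp (T : ℕ) (B : F[X]) : F[X] := by
  classical exact ∏ P ∈ (pf B).filter (fun P => P.natDegree ≤ T), P

theorem tp_monic (T : ℕ) (B : F[X]) : (tp T B).Monic := by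
  classical
  unfold tp
  exact monic_prod_of_monic _ _ fun P hP => (mem_pf' (Finset.mem_filter.1 hP).1).1

theorem tp_dvd (T : ℕ) {B : F[X]} : tp T B ∣ B := by
  classical
  unfold tp
  apply Finset.prod_dvd_of_coprime
  · intro P hP Q hQ hne
    have hP' := mem_pf' (Finset.mem_filter.1 (Finset.mem_coe.1 hP)).1
    have hQ' := mem_pf' (Finset.mem_filter.1 (Finset.mem_coe.1 hQ)).1
    show IsCoprime P Q
    rw [hP'.2.1.coprime_iff_not_dvd]
    intro h
    exact hne (eq_of_monic_of_associated hP'.1 hQ'.1 (hP'.2.1.associated_of_dvd hQ'.2.1 h))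
  · intro P hP
    exact (mem_pf' (Finset.mem_filter.1 hP).1).2.2

omit [Finite F] in
theorem iv_prod {ι : Type} (s : Finset ι) (f : ι → F[X]) (hf : ∀ i ∈ s, (f i).Monic) :
    iv (∏ i ∈ s, f i) = ∏ i ∈ s, iv (f i) := by
  unfold iv
  rw [natDegree_prod_of_monic _ _ hf, ← Finset.prod_pow_eq_pow_sum, Finset.prod_div_distrib,
    Finset.prod_const_one]

theorem prod_PP_le {T : ℕ} (hT : 1 ≤ T) : ∏ P ∈ PP F T, (1 + iv P) ≤ 3 * T := by
  have h1 : ∏ P ∈ PP F T, (1 + iv P) ≤ Real.exp (∑ P ∈ PP F T, iv P) := by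
    rw [Real.exp_sum]
    refine Finset.prod_le_prod (fun P _ => by have := iv_nonneg P; linarith) fun P _ => ?_
    have := Real.add_one_le_exp (iv P)
    linarith
  refine h1.trans ?_
  have h2 : ∑ P ∈ PP F T, iv P = SP F T := sum_PP_inv T
  rw [h2]
  have h3 : SP F T ≤ 1 + Real.log T := SP_le_log hT
  have hT0 : (0 : ℝ) < T := by exact_mod_cast hT
  refine (Real.exp_le_exp.2 h3).trans ?_
  rw [Real.exp_add, Real.exp_log hT0]
  have := Real.exp_one_lt_d9
  nlinarith

theorem GG_le (N : F[X]) (e : ℝ) {T : ℕ} (hT : 1 ≤ T) (n : ℕ) :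
    ∑ B ∈ GG N e T n, iv B ≤ 3 * T * ∑ B ∈ MM N e T n, iv B := by
  classical
  have hM0 : 0 ≤ ∑ B ∈ MM N e T n, iv B := Finset.sum_nonneg fun B _ => iv_nonneg B
  refine le_trans ?_ (mul_le_mul_of_nonneg_right (prod_PP_le (F := F) hT) hM0)
  rw [Finset.prod_one_add, Finset.sum_mul_sum, ← Finset.sum_product']
  -- the injection
  have hinj : ∀ B ∈ GG N e T n, ∃ m : F[X], B = tp T B * m ∧ m ∈ MM N e T n ∧
      iv B = (∏ P ∈ (pf B).filter (fun P => P.natDegree ≤ T), iv P) * iv m := by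
    intro B hB
    unfold GG at hB
    rw [Finset.mem_filter, mem_Ml] at hB
    obtain ⟨⟨hBm, hBd⟩, hBs, hBc⟩ := hB
    obtain ⟨m, hm⟩ := tp_dvd T (B := B)
    have htm := tp_monic T B
    have hmm : m.Monic := htm.of_mul_monic_left (hm ▸ hBm)
    refine ⟨m, hm, ?_, ?_⟩
    · unfold MM
      rw [Finset.mem_filter, mem_Ml]
      refine ⟨⟨hmm, ?_⟩, ?_, ?_⟩
      · refine lt_of_le_of_lt ?_ hBd
        exact natDegree_le_of_dvd ⟨tp T B, by rw [mul_comm]; exact hm⟩ hBm.ne_zero
      · exact hBs.squarefree_of_dvd ⟨tp T B, by rw [mul_comm]; exact hm⟩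
      · intro P hP1 hP2 hP3
        have hPB : P ∣ B := hP3.trans ⟨tp T B, by rw [mul_comm]; exact hm⟩
        have hTd : T < P.natDegree := by
          by_contra hcon
          have hPt : P ∣ tp T B := by
            unfold tp
            exact Finset.dvd_prod_of_mem (fun P => P) (Finset.mem_filter.2
              ⟨(mem_pf hBm.ne_zero).2 ⟨hP1, hP2, hPB⟩, not_lt.1 hcon⟩)
          have : P * P ∣ B := by
            rw [hm]; exact mul_dvd_mul hPt hP3
          exact hP2.not_isUnit (hBs P this)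
        exact ⟨hTd, hBc P hP1 hP2 hPB hTd⟩
    · conv_lhs => rw [hm]
      rw [iv_mul htm hmm]
      congr 1
      unfold tp
      exact iv_prod _ _ fun P hP => (mem_pf' (Finset.mem_filter.1 hP).1).1
  choose! mf hmf1 hmf2 hmf3 using hinj
  rw [Finset.sum_congr rfl hmf3]
  rw [← Finset.sum_image (s := GG N e T n)
    (g := fun B => ((pf B).filter (fun P => P.natDegree ≤ T), mf B))
    (f := fun p : Finset F[X] × F[X] => (∏ P ∈ p.1, iv P) * iv p.2)]
  · apply Finset.sum_le_sum_of_subset_of_nonneg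
    · intro p hp
      rw [Finset.mem_image] at hp
      obtain ⟨B, hB, rfl⟩ := hp
      rw [Finset.mem_product, Finset.mem_powerset]
      refine ⟨?_, hmf2 B hB⟩
      intro P hP
      rw [Finset.mem_filter] at hP
      have := mem_pf' hP.1
      exact mem_PP.2 ⟨this.1, this.2.1, hP.2⟩
    · rintro ⟨s, m⟩ _ _
      exact mul_nonneg (Finset.prod_nonneg fun P _ => iv_nonneg P) (iv_nonneg m)
  · intro B hB B' hB' heq
    rw [Prod.mk.injEq] at heq
    have h1 := hmf1 B hB
    have h2 := hmf1 B' hB'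
    have h3 : tp T B = tp T B' := by unfold tp; rw [heq.1]
    rw [h1, h2, h3, heq.2]

open Classical in
/-- squarefree members of `Cl` of degree `n` -/
noncomputable def Gn (N : F[X]) (e : ℝ) (T n : ℕ) : Finset F[X] :=
  (Sq F n).filter fun A => Cl N e T A

theorem Gn_rec (N : F[X]) (e : ℝ) (T n : ℕ) :
    (n : ℝ) * (Gn N e T n).card ≤ (Nat.card F : ℝ) ^ n * ∑ B ∈ GG N e T n, iv B := by
  classical
  have hq : (0 : ℝ) < (Nat.card F : ℝ) := by exact_mod_cast (Nat.card_pos : 0 < Nat.card F)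
  -- the number of pairs
  have h1 : (n : ℝ) * (Gn N e T n).card = ∑ A ∈ Gn N e T n, ∑ P ∈ pf A, (P.natDegree : ℝ) := by
    rw [mul_comm, ← nsmul_eq_mul, ← Finset.sum_const]
    refine Finset.sum_congr rfl fun A hA => ?_
    unfold Gn at hA
    rw [Finset.mem_filter, mem_Sq] at hA
    obtain ⟨⟨hA1, hA2, hA3⟩, _⟩ := hA
    have h3 : A = ∏ P ∈ pf A, P := by
      have h4 : ∏ P ∈ pf A, P ∣ A := by
        apply Finset.prod_dvd_of_coprime
        · intro P hP Q hQ hne
          have hP' := mem_pf' (Finset.mem_coe.1 hP)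
          have hQ' := mem_pf' (Finset.mem_coe.1 hQ)
          show IsCoprime P Q
          rw [hP'.2.1.coprime_iff_not_dvd]
          intro h
          exact hne (eq_of_monic_of_associated hP'.1 hQ'.1 (hP'.2.1.associated_of_dvd hQ'.2.1 h))
        · intro P hP
          exact (mem_pf' hP).2.2
      have h5 : (∏ P ∈ pf A, P).Monic := monic_prod_of_monic _ _ fun P hP => (mem_pf' hP).1
      obtain ⟨c, hc⟩ := h4
      have hcm : c.Monic := h5.of_mul_monic_left (hc ▸ hA1)
      have hcu : IsUnit c := by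
        by_contra hu
        obtain ⟨P, hP1, hP2, hP3⟩ := exists_monic_irreducible_factor c hu
        have hPA : P ∣ A := by rw [hc]; exact hP3.mul_left _
        have hPp : P ∣ ∏ P ∈ pf A, P :=
          Finset.dvd_prod_of_mem (fun P => P) ((mem_pf hA1.ne_zero).2 ⟨hP1, hP2, hPA⟩)
        have : P * P ∣ A := by rw [hc]; exact mul_dvd_mul hPp hP3
        exact hP2.not_isUnit (hA3 P this)
      rw [hcm.eq_one_of_isUnit hcu, mul_one] at hc
      exact hc
    have h4 : (A.natDegree : ℝ) = ∑ P ∈ pf A, (P.natDegree : ℝ) := by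
      conv_lhs => rw [h3]
      rw [natDegree_prod_of_monic _ _ fun P hP => (mem_pf' hP).1]
      push_cast
      rfl
    rw [← h4, hA2]
  rw [h1]
  -- reorganise
  have h2 : ∑ A ∈ Gn N e T n, ∑ P ∈ pf A, (P.natDegree : ℝ) ≤
      ∑ B ∈ GG N e T n, ∑ P ∈ Pr F (n - B.natDegree), (P.natDegree : ℝ) := by
    rw [Finset.sum_sigma', Finset.sum_sigma']
    have hquot : ∀ x ∈ (Gn N e T n).sigma (fun A => pf A), ∃ B : F[X], x.1 = x.2 * B ∧
        B ∈ GG N e T n ∧ x.2 ∈ Pr F (n - B.natDegree) := by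
      rintro ⟨A, P⟩ hx
      rw [Finset.mem_sigma] at hx
      obtain ⟨hA, hP⟩ := hx
      unfold Gn at hA
      rw [Finset.mem_filter, mem_Sq] at hA
      obtain ⟨⟨hA1, hA2, hA3⟩, hA4⟩ := hA
      obtain ⟨hP1, hP2, hP3⟩ := mem_pf' hP
      obtain ⟨B, hB⟩ := hP3
      have hBm : B.Monic := hP1.of_mul_monic_left (hB ▸ hA1)
      have hdeg : n = P.natDegree + B.natDegree := by
        rw [← hA2]
        have := congrArg natDegree hB
        rw [hP1.natDegree_mul hBm] at this
        exact this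
      have hP2' : Irreducible P := hP2
      have hPd : 0 < P.natDegree := hP2'.natDegree_pos
      refine ⟨B, hB, ?_, mem_Pr.2 ⟨hP1, ?_, hP2'⟩⟩
      · unfold GG
        rw [Finset.mem_filter, mem_Ml]
        refine ⟨⟨hBm, by omega⟩, hA3.squarefree_of_dvd ⟨P, by rw [mul_comm]; exact hB⟩, ?_⟩
        intro Q hQ1 hQ2 hQ3 hQ4
        exact hA4 Q hQ1 hQ2 (hQ3.trans ⟨P, by rw [mul_comm]; exact hB⟩) hQ4
      · show P.natDegree = n - B.natDegree
        omega
    choose! Bf hB1 hB2 hB3 using hquot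
    rw [← Finset.sum_image (s := (Gn N e T n).sigma (fun A => pf A))
      (g := fun x => (⟨Bf x, x.2⟩ : (_ : F[X]) × F[X]))
      (f := fun y : (_ : F[X]) × F[X] => (y.2.natDegree : ℝ))]
    · apply Finset.sum_le_sum_of_subset_of_nonneg
      · intro y hy
        rw [Finset.mem_image] at hy
        obtain ⟨x, hx, rfl⟩ := hy
        rw [Finset.mem_sigma]
        exact ⟨hB2 x hx, hB3 x hx⟩
      · intro y _ _
        positivity
    · rintro ⟨A, P⟩ hx ⟨A', P'⟩ hx' heq
      rw [Finset.mem_coe] at hx hx'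
      have e1 := hB1 _ hx
      have e2 := hB1 _ hx'
      simp only [Sigma.mk.injEq, heq_eq_eq] at heq
      obtain ⟨h5, h6⟩ := heq
      simp only at e1 e2
      subst h6
      have : A = A' := by rw [e1, e2, h5]
      subst this
      rfl
  refine h2.trans ?_
  rw [Finset.mul_sum]
  refine Finset.sum_le_sum fun B hB => ?_
  unfold GG at hB
  rw [Finset.mem_filter, mem_Ml] at hB
  have hBn := hB.1.2
  have h3 : ∑ P ∈ Pr F (n - B.natDegree), (P.natDegree : ℝ) =
      (n - B.natDegree : ℕ) * (Pr F (n - B.natDegree)).card := by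
    rw [Finset.sum_congr rfl (g := fun _ => ((n - B.natDegree : ℕ) : ℝ))
      (fun P hP => by rw [(mem_Pr.1 hP).2.1]), Finset.sum_const, nsmul_eq_mul, mul_comm]
  rw [h3]
  have h4 := card_Pr_mul_le (F := F) (n - B.natDegree) (by omega)
  have h5 : ((n - B.natDegree : ℕ) : ℝ) * (Pr F (n - B.natDegree)).card ≤
      (Nat.card F : ℝ) ^ (n - B.natDegree) := by exact_mod_cast h4
  refine h5.trans (le_of_eq ?_)
  unfold iv
  rw [mul_one_div, eq_div_iff (pow_pos hq _).ne', ← pow_add]
  congr 1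
  omega

/-- the proportion of squarefree polynomials whose primes of degree `> T` all satisfy
`chi N e P = 1` -/
theorem Gn_card_le (h2 : (2 : F) ≠ 0) {N : F[X]} (hN : N.Monic) (hs : ¬ IsSquare N) {e : ℝ}
    (he : e = 1 ∨ e = -1) {T n : ℕ} (hT : 1 ≤ T) (hn : 1 ≤ n) :
    ((Gn N e T n).card : ℝ) ≤
      (Nat.card F : ℝ) ^ n * (3 * T * Real.sqrt (2 * N.natDegree / n)) := by
  have hn0 : (0 : ℝ) < n := by exact_mod_cast hn
  have hq : (0 : ℝ) < (Nat.card F : ℝ) := by exact_mod_cast (Nat.card_pos : 0 < Nat.card F)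
  have hM0 : 0 ≤ ∑ B ∈ MM N e T n, iv B := Finset.sum_nonneg fun B _ => iv_nonneg B
  have h1 := Gn_rec N e T n
  have h3 := GG_le N e hT n
  have h4 := MM_sq_le h2 hN hs he T n
  have h5 : ∑ B ∈ MM N e T n, iv B ≤ n * Real.sqrt (2 * N.natDegree / n) := by
    have h6 : n * Real.sqrt (2 * N.natDegree / n) = Real.sqrt (2 * n * N.natDegree) := by
      have : (2 * n * N.natDegree : ℝ) = (n : ℝ) ^ 2 * (2 * N.natDegree / n) := by field_simp
      rw [this, Real.sqrt_mul (by positivity), Real.sqrt_sq hn0.le]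
    rw [h6]
    exact Real.le_sqrt_of_sq_le h4
  have h6 : (n : ℝ) * (Gn N e T n).card ≤
      n * ((Nat.card F : ℝ) ^ n * (3 * T * Real.sqrt (2 * N.natDegree / n))) := by
    refine h1.trans ?_
    have h7 : ∑ B ∈ GG N e T n, iv B ≤ 3 * T * (n * Real.sqrt (2 * N.natDegree / n)) :=
      h3.trans (mul_le_mul_of_nonneg_left h5 (by positivity))
    refine (mul_le_mul_of_nonneg_left h7 (pow_pos hq n).le).trans (le_of_eq ?_)
    ring
  exact le_of_mul_le_mul_left h6 hn0

end Pool.Agent.H74.ST
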