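import Pool.Agent.H94.PC.PrCount
import Pool.Agent.H94.PC.MoMod

set_option autoImplicit false

/-!
# Counting monic irreducible polynomials

`q ^ m ≤ m π(m) + 2 q ^ (m / 2)`, and `|∑_{m ≤ n} π(m) / q ^ m - log n| ≤ 4`.
-/

namespace Pool.Agent.H74.ST

open Polynomial Pool.Agent.H94.PC

variable {F : Type} [Field F] [Finite F]

theorem card_le_sum_Pr {m : ℕ} (hm : 1 ≤ m) :
    Nat.card F ^ m ≤ ∑ k ∈ m.divisors, k * (Pr F k).card := by
  classical
  have hq : 1 < Nat.card F := Finite.one_lt_card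
  have hfin : Fintype F := Fintype.ofFinite F
  set G : F[X] := X ^ (Nat.card F) ^ m - X with hG
  have hG0 : G ≠ 0 := FiniteField.X_pow_card_pow_sub_X_ne_zero F (by omega) hq
  have hdeg : G.natDegree = Nat.card F ^ m :=
    FiniteField.X_pow_card_pow_sub_X_natDegree_eq F (by omega) hq
  have hGm : G.Monic := by
    rw [hG]
    apply monic_X_pow_sub
    rw [degree_X]
    have : 1 < Nat.card F ^ m := Nat.one_lt_pow (by omega) hq
    exact_mod_cast this
  have hsep : G.Separable := by
    obtain ⟨p, hp⟩ := CharP.exists F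
    have hpp : p.Prime := CharP.char_is_prime F p
    have : Fact p.Prime := ⟨hpp⟩
    have hcard : (Nat.card F : F) = 0 := by
      rw [Nat.card_eq_fintype_card]
      exact FiniteField.cast_card_eq_zero F
    rw [separable_def, hG]
    have hder : derivative (X ^ (Nat.card F) ^ m - X : F[X]) = -1 := by
      rw [derivative_sub, derivative_X_pow, derivative_X]
      have : ((Nat.card F ^ m : ℕ) : F) = 0 := by
        rw [Nat.cast_pow, hcard, zero_pow (by omega)]
      rw [this, C_0, zero_mul, zero_sub]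
    rw [hder]
    exact ⟨0, -1, by ring⟩
  have hsq : Squarefree G := hsep.squarefree
  -- the product of all monic irreducible divisors
  have hprod : G ∣ ∏ k ∈ m.divisors, ∏ P ∈ Pr F k, P := by
    have h1 : (UniqueFactorizationMonoid.normalizedFactors G).prod = G := by
      have := UniqueFactorizationMonoid.prod_normalizedFactors_eq hG0
      rw [this]
      exact hGm.normalize_eq_self
    rw [← h1]
    have hnd : (UniqueFactorizationMonoid.normalizedFactors G).Nodup :=
      (UniqueFactorizationMonoid.squarefree_iff_nodup_normalizedFactors hG0).1 hsq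
    have h2 : (UniqueFactorizationMonoid.normalizedFactors G).prod =
        ∏ P ∈ (UniqueFactorizationMonoid.normalizedFactors G).toFinset, P := by
      rw [Finset.prod_multiset_count]
      refine Finset.prod_congr rfl fun P hP => ?_
      rw [Multiset.count_eq_one_of_mem hnd (Multiset.mem_toFinset.1 hP), pow_one]
    rw [h2]
    have h3 : ∏ k ∈ m.divisors, ∏ P ∈ Pr F k, P =
        ∏ P ∈ m.divisors.biUnion (fun k => Pr F k), P := by
      rw [Finset.prod_biUnion]
      intro i _ j _ hij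
      rw [Function.onFun, Finset.disjoint_left]
      intro P hP hP'
      exact hij ((mem_Pr.1 hP).2.1.symm.trans (mem_Pr.1 hP').2.1)
    rw [h3]
    apply Finset.prod_dvd_prod_of_subset
    intro P hP
    have hP' := Multiset.mem_toFinset.1 hP
    have hirr : Irreducible P :=
      (UniqueFactorizationMonoid.prime_of_normalized_factor P hP').irreducible
    have hdvd : P ∣ G := UniqueFactorizationMonoid.dvd_of_mem_normalizedFactors hP'
    have hnorm : normalize P = P := UniqueFactorizationMonoid.normalize_normalized_factor P hP'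
    have hmon : P.Monic := by
      rw [← hnorm]; exact monic_normalize hirr.ne_zero
    rw [Finset.mem_biUnion]
    refine ⟨P.natDegree, ?_, mem_Pr.2 ⟨hmon, rfl, hirr⟩⟩
    rw [Nat.mem_divisors]
    exact ⟨hirr.natDegree_dvd_of_dvd_X_pow_card_pow_sub_X hdvd, by omega⟩
  have hmon : ∀ k ∈ m.divisors, (∏ P ∈ Pr F k, P).Monic := fun k _ =>
    monic_prod_of_monic _ _ fun P hP => (mem_Pr.1 hP).1
  have hmon2 : (∏ k ∈ m.divisors, ∏ P ∈ Pr F k, P).Monic := monic_prod_of_monic _ _ hmon
  have h4 := natDegree_le_of_dvd hprod hmon2.ne_zero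
  rw [hdeg, natDegree_prod_of_monic _ _ hmon] at h4
  refine h4.trans (le_of_eq ?_)
  refine Finset.sum_congr rfl fun k _ => ?_
  rw [natDegree_prod_of_monic _ _ (fun P hP => (mem_Pr.1 hP).1),
    Finset.sum_congr rfl (fun P hP => (mem_Pr.1 hP).2.1), Finset.sum_const, smul_eq_mul, mul_comm]

theorem sum_pow_le {q : ℕ} (hq : 2 ≤ q) (n : ℕ) : ∑ k ∈ Finset.range (n + 1), q ^ k ≤ 2 * q ^ n := by
  induction n with
  | zero => simp
  | succ n ih =>
    rw [Finset.sum_range_succ]
    have : 2 * q ^ n ≤ q ^ (n + 1) := by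
      rw [pow_succ, mul_comm]
      exact Nat.mul_le_mul_left _ hq
    omega

/-- the prime number theorem, lower bound -/
theorem card_le_Pr {m : ℕ} (hm : 1 ≤ m) :
    Nat.card F ^ m ≤ m * (Pr F m).card + 2 * Nat.card F ^ (m / 2) := by
  classical
  have hq : 2 ≤ Nat.card F := Finite.one_lt_card
  have h1 := card_le_sum_Pr (F := F) hm
  have h2 : m.divisors = insert m (m.properDivisors) := (Nat.insert_self_properDivisors (by omega)).symm
  rw [h2, Finset.sum_insert (fun h => (Nat.mem_properDivisors.1 h).2.ne rfl)] at h1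
  have h3 : ∑ k ∈ m.properDivisors, k * (Pr F k).card ≤ 2 * Nat.card F ^ (m / 2) := by
    refine le_trans ?_ (sum_pow_le hq (m / 2))
    refine le_trans (Finset.sum_le_sum (g := fun k => Nat.card F ^ k) fun k hk => ?_) ?_
    · have hk1 : 1 ≤ k := Nat.pos_of_mem_properDivisors hk
      exact card_Pr_mul_le k hk1
    · apply Finset.sum_le_sum_of_subset
      intro k hk
      obtain ⟨hk1, hk2⟩ := Nat.mem_properDivisors.1 hk
      obtain ⟨c, hc⟩ := hk1
      rw [Finset.mem_range]
      have hc2 : 2 ≤ c := by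
        rcases Nat.lt_or_ge c 2 with h | h
        · interval_cases c
          · omega
          · omega
        · exact h
      have : k * 2 ≤ m := by
        rw [hc]; exact Nat.mul_le_mul_left _ hc2
      have := (Nat.le_div_iff_mul_le (by norm_num : 0 < 2)).2 this
      omega
  omega

/-- `∑_{1 ≤ m ≤ n} π(m) / q ^ m` -/
noncomputable def SP (F : Type) [Field F] [Finite F] (n : ℕ) : ℝ :=
  ∑ m ∈ Finset.range n, ((Pr F (m + 1)).card : ℝ) / (Nat.card F : ℝ) ^ (m + 1)

theorem SP_nonneg (n : ℕ) : 0 ≤ SP F n := by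
  unfold SP; positivity

theorem SP_succ (n : ℕ) : SP F (n + 1) = SP F n + ((Pr F (n + 1)).card : ℝ) / (Nat.card F : ℝ) ^ (n + 1) := by
  unfold SP; rw [Finset.sum_range_succ]

theorem SP_mono {m n : ℕ} (h : m ≤ n) : SP F m ≤ SP F n := by
  unfold SP
  apply Finset.sum_le_sum_of_subset_of_nonneg
  · intro x hx
    rw [Finset.mem_range] at *
    omega
  · intro i _ _; positivity

theorem SP_term_le (m : ℕ) (hm : 1 ≤ m) :
    ((Pr F m).card : ℝ) / (Nat.card F : ℝ) ^ m ≤ 1 / m := by
  have hq : (0 : ℝ) < (Nat.card F : ℝ) ^ m := by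
    have : 0 < Nat.card F := Nat.card_pos
    positivity
  have h := card_Pr_le_div (F := F) m hm
  rw [div_le_div_iff₀ hq (by exact_mod_cast hm)]
  rw [le_div_iff₀ (by exact_mod_cast hm)] at h
  linarith

theorem SP_le_log {n : ℕ} (hn : 1 ≤ n) : SP F n ≤ 1 + Real.log n := by
  have h1 : SP F n ≤ (harmonic n : ℝ) := by
    unfold SP harmonic
    push_cast
    refine Finset.sum_le_sum fun m _ => ?_
    have := SP_term_le (F := F) (m + 1) (by omega)
    rw [one_div] at this
    push_cast at this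
    exact this
  exact h1.trans (harmonic_le_one_add_log n)

theorem log_le_SP (n : ℕ) : Real.log (n + 1) ≤ SP F n + 4 := by
  have hq : 2 ≤ Nat.card F := Finite.one_lt_card
  have hq0 : (0 : ℝ) < (Nat.card F : ℝ) := by exact_mod_cast (by omega : 0 < Nat.card F)
  have hq2 : (2 : ℝ) ≤ (Nat.card F : ℝ) := by exact_mod_cast hq
  have h1 : Real.log (n + 1) ≤ (harmonic n : ℝ) := by
    have := log_add_one_le_harmonic n
    exact_mod_cast this
  refine h1.trans ?_
  -- termwise
  have hterm : ∀ m : ℕ, 1 ≤ m → 1 / (m : ℝ) ≤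
      ((Pr F m).card : ℝ) / (Nat.card F : ℝ) ^ m + 2 * (1 / 2 : ℝ) ^ (m - m / 2) := by
    intro m hm
    have hm0 : (1 : ℝ) ≤ m := by exact_mod_cast hm
    have h2 := card_le_Pr (F := F) hm
    have h3 : (Nat.card F : ℝ) ^ m ≤ m * (Pr F m).card + 2 * (Nat.card F : ℝ) ^ (m / 2) := by
      exact_mod_cast h2
    have hqm : (0 : ℝ) < (Nat.card F : ℝ) ^ m := by positivity
    have h4 : (Nat.card F : ℝ) ^ (m / 2) = (Nat.card F : ℝ) ^ m * ((Nat.card F : ℝ)⁻¹) ^ (m - m / 2) := by
      have : m = m / 2 + (m - m / 2) := by omega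
      conv_rhs => rw [this]
      rw [pow_add]
      have h5 : m / 2 + (m - m / 2) - (m / 2 + (m - m / 2)) / 2 = m - m / 2 := by omega
      rw [h5, inv_pow]
      field_simp
    have h5 : ((Nat.card F : ℝ)⁻¹) ^ (m - m / 2) ≤ (1 / 2 : ℝ) ^ (m - m / 2) := by
      apply pow_le_pow_left₀ (by positivity)
      rw [one_div]
      exact inv_anti₀ (by norm_num) hq2
    have h6 : 1 ≤ m * (((Pr F m).card : ℝ) / (Nat.card F : ℝ) ^ m) + 2 * (1 / 2 : ℝ) ^ (m - m / 2) := by
      rw [h4] at h3
      have : (Nat.card F : ℝ) ^ m * 1 ≤ (Nat.card F : ℝ) ^ m *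
          (m * (((Pr F m).card : ℝ) / (Nat.card F : ℝ) ^ m) + 2 * (1 / 2 : ℝ) ^ (m - m / 2)) := by
        have e1 : (Nat.card F : ℝ) ^ m * (m * (((Pr F m).card : ℝ) / (Nat.card F : ℝ) ^ m) +
            2 * (1 / 2 : ℝ) ^ (m - m / 2)) = m * (Pr F m).card +
            2 * ((Nat.card F : ℝ) ^ m * (1 / 2 : ℝ) ^ (m - m / 2)) := by
          field_simp
        rw [e1, mul_one]
        nlinarith [mul_le_mul_of_nonneg_left h5 hqm.le]
      exact le_of_mul_le_mul_left this hqm
    rw [div_le_iff₀ (by linarith)]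
    have h7 : 2 * (1 / 2 : ℝ) ^ (m - m / 2) ≤ 2 * (1 / 2 : ℝ) ^ (m - m / 2) * m := by
      have : 0 ≤ 2 * (1 / 2 : ℝ) ^ (m - m / 2) := by positivity
      nlinarith
    nlinarith
  have h8 : ∀ N : ℕ, ∑ m ∈ Finset.range (2 * N), 2 * (1 / 2 : ℝ) ^ (m + 1 - (m + 1) / 2) ≤
      4 - 4 * (1 / 2 : ℝ) ^ N := by
    intro N
    induction N with
    | zero => norm_num
    | succ N ih =>
      rw [show 2 * (N + 1) = 2 * N + 1 + 1 by ring, Finset.sum_range_succ, Finset.sum_range_succ]
      have e1 : 2 * N + 1 - (2 * N + 1) / 2 = N + 1 := by omega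
      have e2 : 2 * N + 1 + 1 - (2 * N + 1 + 1) / 2 = N + 1 := by omega
      rw [e1, e2]
      have : (1 / 2 : ℝ) ^ (N + 1) = (1 / 2) ^ N / 2 := by rw [pow_succ]; ring
      rw [this]
      linarith
  have h9 : (harmonic n : ℝ) ≤ SP F n + ∑ m ∈ Finset.range n, 2 * (1 / 2 : ℝ) ^ (m + 1 - (m + 1) / 2) := by
    unfold SP harmonic
    push_cast
    rw [← Finset.sum_add_distrib]
    refine Finset.sum_le_sum fun m _ => ?_
    have := hterm (m + 1) (by omega)
    rw [one_div] at this
    push_cast at this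
    exact this
  have h10 : ∑ m ∈ Finset.range n, 2 * (1 / 2 : ℝ) ^ (m + 1 - (m + 1) / 2) ≤
      ∑ m ∈ Finset.range (2 * n), 2 * (1 / 2 : ℝ) ^ (m + 1 - (m + 1) / 2) := by
    apply Finset.sum_le_sum_of_subset_of_nonneg
    · intro x hx
      rw [Finset.mem_range] at *
      omega
    · intro i _ _; positivity
  have h11 := h8 n
  have h12 : (0 : ℝ) ≤ 4 * (1 / 2 : ℝ) ^ n := by positivity
  linarith

theorem log_le_SP' {n : ℕ} (hn : 1 ≤ n) : Real.log n ≤ SP F n + 4 := by
  refine le_trans (Real.log_le_log (by exact_mod_cast hn) (by linarith)) (log_le_SP n)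

end Pool.Agent.H74.ST
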